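import Pool.Agent.Helper187.Leg.Main1

open MeasureTheory Set Real Filter Topology
open scoped ENNReal

namespace Pool.Agent.Y249.Leg

open Pool.Agent.Helper187.Leg

section
variable
  (hfin : ∀ a b : ℝ, -1 < a → a < b → b < 1 → NN ((Ico a b).indicator 1) < ⊤)
  (hconv : ∀ a b : ℝ, -1 < a → a < b → b < 1 → ∀ x : ℝ, -1 < x → x < 1 → x ≠ a → x ≠ b →
    Tendsto (fun n : ℕ => ∫ t in a..b, LK n x t) atTop (𝓝 (if a < x ∧ x < b then 1 else 0)))

include hfin hconv in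
theorem assemblyC (s : ℕ → ℝ → ℝ) (J : ℕ → Set ℝ) (hs : ∀ j, StepOn (J j) (s j)) (F : ℝ → ℝ)
    (hF : Measurable F) (hsum : ∑' j, NN (fun x => s (j + 1) x - s j x) ≠ ⊤)
    (hlim : ∀ᵐ x ∂mu1, Tendsto (fun j => s j x) atTop (𝓝 (F x))) :
    (Integrable F mu1 ∧ NN F < ⊤) ∧
      ∀ᵐ x ∂mu1, Tendsto (fun n => Sn n F x) atTop (𝓝 (F x)) := by
  set d : ℕ → ℝ → ℝ := fun j x => s (j + 1) x - s j x with hd
  have hdii : ∀ j, IntervalIntegrable (d j) volume (-1) 1 := fun j => (hs (j + 1)).ii.sub (hs j).ii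
  have hdm : ∀ j, Measurable (d j) := fun j => (hs (j + 1)).meas.sub (hs j).meas
  have hnorm : ∀ j, ∫⁻ x in Ioo (-1 : ℝ) 1, ‖d j x‖ₑ ≤ NN (d j) := by
    intro j
    have h1 := N2.Sn_step_tendsto hconv (hs (j + 1))
    have h0 := N2.Sn_step_tendsto hconv (hs j)
    rw [N2.mu1_Ioo] at h1 h0
    refine lintegral_mono_ae ?_
    filter_upwards [h1, h0] with x hx1 hx0
    have h2 : Tendsto (fun n => ‖Sn n (d j) x‖ₑ) atTop (𝓝 ‖d j x‖ₑ) := by
      have h3 := (hx1.sub hx0).enorm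
      refine h3.congr fun n => ?_
      rw [← Sn_sub n (hs (j + 1)).ii (hs j).ii]
    exact le_of_tendsto' h2 fun n => le_iSup (fun n => ‖Sn n (d j) x‖ₑ) n
  have hstep : ∀ j x, s (j + 1) x = s j x + d j x := fun j x => by simp [hd]
  -- pointwise bound of partial sums
  have hb : ∀ j x, ‖s j x‖ₑ ≤ ‖s 0 x‖ₑ + ∑' i, ‖d i x‖ₑ := by
    intro j x
    have : ‖s j x‖ₑ ≤ ‖s 0 x‖ₑ + ∑ i ∈ Finset.range j, ‖d i x‖ₑ := by
      induction j with
      | zero => simp
      | succ j ih =>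
        rw [hstep, Finset.sum_range_succ, ← add_assoc]
        exact (enorm_add_le _ _).trans (add_le_add ih le_rfl)
    exact this.trans (add_le_add le_rfl (ENNReal.sum_le_tsum _))
  have hGm : Measurable fun x => ‖s 0 x‖ₑ + ∑' i, ‖d i x‖ₑ :=
    (hs 0).meas.enorm.add (Measurable.tsum fun i => (hdm i).enorm)
  have hG : ∫⁻ x in Ioo (-1 : ℝ) 1, (‖s 0 x‖ₑ + ∑' i, ‖d i x‖ₑ) < ⊤ := by
    rw [lintegral_add_left (hs 0).meas.enorm, lintegral_tsum fun i => (hdm i).enorm.aemeasurable]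
    refine ENNReal.add_lt_top.2 ⟨N2.lint_lt_top (hs 0).ii, ?_⟩
    exact lt_of_le_of_lt (ENNReal.tsum_le_tsum hnorm) (lt_top_iff_ne_top.2 hsum)
  have hGae : ∀ᵐ x ∂(volume.restrict (Ioo (-1 : ℝ) 1)), (‖s 0 x‖ₑ + ∑' i, ‖d i x‖ₑ) < ⊤ :=
    ae_lt_top hGm hG.ne
  have hFb : ∀ᵐ x ∂(volume.restrict (Ioo (-1 : ℝ) 1)), ‖F x‖ₑ ≤ ‖s 0 x‖ₑ + ∑' i, ‖d i x‖ₑ := by
    rw [← N2.mu1_Ioo]
    filter_upwards [hlim] with x hx
    exact le_of_tendsto' hx.enorm fun j => hb j x
  have hFi : Integrable F mu1 := by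
    refine ⟨hF.aestronglyMeasurable, ?_⟩
    rw [N2.mu1_Ioo]
    exact lt_of_le_of_lt (lintegral_mono_ae hFb) hG
  set g : ℝ → ℝ := fun x => (‖s 0 x‖ₑ + ∑' i, ‖d i x‖ₑ).toReal with hg
  have hgi : IntervalIntegrable g volume (-1) 1 := by
    rw [intervalIntegrable_iff_integrableOn_Ioo_of_le (by norm_num)]
    exact integrable_toReal_of_lintegral_ne_top hGm.aemeasurable hG.ne
  -- convergence of the partial sums
  have hcv : ∀ n x, Tendsto (fun j => Sn n (s j) x) atTop (𝓝 (Sn n F x)) := by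
    intro n x
    unfold Sn
    refine intervalIntegral.tendsto_integral_filter_of_dominated_convergence (fun t => ‖LK n x t‖ * g t) ?_ ?_ ?_ ?_
    · refine Eventually.of_forall fun j => ?_
      exact ((LK_cont n x).measurable.mul (hs j).meas).aestronglyMeasurable
    · refine Eventually.of_forall fun j => ?_
      have : ∀ᵐ t ∂(volume : Measure ℝ), t ∈ Ioo (-1 : ℝ) 1 → (‖s 0 t‖ₑ + ∑' i, ‖d i t‖ₑ) < ⊤ := by
        rwa [ae_restrict_iff' measurableSet_Ioo] at hGae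
      have h1 : ∀ᵐ t ∂(volume : Measure ℝ), t ≠ 1 := by
        have := (countable_singleton (1 : ℝ)).ae_notMem (volume : Measure ℝ)
        simpa using this
      filter_upwards [this, h1] with t ht ht1 hmem
      rw [uIoc_of_le (by norm_num)] at hmem
      rw [norm_mul]
      refine mul_le_mul_of_nonneg_left ?_ (norm_nonneg _)
      have h2 := ht ⟨hmem.1, lt_of_le_of_ne hmem.2 ht1⟩
      have h3 := ENNReal.toReal_mono h2.ne (hb j t)
      rwa [toReal_enorm] at h3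
    · exact hgi.continuousOn_mul (LK_cont n x).norm.continuousOn
    · have : ∀ᵐ t ∂(volume : Measure ℝ), t ∈ Icc (-1 : ℝ) 1 → Tendsto (fun j => s j t) atTop (𝓝 (F t)) := by
        rwa [mu1, ae_restrict_iff' measurableSet_Icc] at hlim
      filter_upwards [this] with t ht hmem
      rw [uIoc_of_le (by norm_num)] at hmem
      exact (ht ⟨hmem.1.le, hmem.2⟩).const_mul _
  refine ⟨N2.assembly hfin hconv s J hs F hF hsum hlim, ?_⟩
  -- the tail function
  have hSmeas : ∀ j, Measurable (Smax (d j)) := fun j => Smax_meas (hdii j)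
  have hTae : ∀ᵐ x ∂mu1, (∑' j, Smax (d j) x) < ⊤ := by
    rw [N2.mu1_Ioo]
    refine ae_lt_top (Measurable.tsum fun i => hSmeas i) ?_
    rw [lintegral_tsum fun i => (hSmeas i).aemeasurable]
    exact hsum
  have hall : ∀ᵐ x ∂mu1, ∀ j, Tendsto (fun n => Sn n (s j) x) atTop (𝓝 (s j x)) := by
    rw [ae_all_iff]
    exact fun j => N2.Sn_step_tendsto hconv (hs j)
  filter_upwards [hTae, hall, hlim] with x hT hA hL
  have htail : Tendsto (fun i => ∑' k, Smax (d (k + i)) x) atTop (𝓝 0) :=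
    ENNReal.tendsto_sum_nat_add (fun j => Smax (d j) x) hT.ne
  have hdiff : ∀ n j, ‖Sn n F x - Sn n (s j) x‖ₑ ≤ ∑' k, Smax (d (k + j)) x := by
    intro n j
    have h1 : ∀ k, ‖Sn n (s (k + j)) x - Sn n (s j) x‖ₑ ≤ ∑ i ∈ Finset.range k, Smax (d (i + j)) x := by
      intro k
      induction k with
      | zero => simp
      | succ k ih =>
        rw [Finset.sum_range_succ]
        have e : Sn n (s (k + 1 + j)) x - Sn n (s j) x =
            (Sn n (s (k + j)) x - Sn n (s j) x) + Sn n (d (k + j)) x := by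
          have e2 : Sn n (d (k + j)) x = Sn n (s (k + j + 1)) x - Sn n (s (k + j)) x :=
            Sn_sub n (hs (k + j + 1)).ii (hs (k + j)).ii x
          rw [e2, show k + 1 + j = k + j + 1 by omega]
          ring
        rw [e]
        refine (enorm_add_le _ _).trans (add_le_add ih ?_)
        exact le_iSup (fun n => ‖Sn n (d (k + j)) x‖ₑ) n
    have h2 : Tendsto (fun k => ‖Sn n (s (k + j)) x - Sn n (s j) x‖ₑ) atTop
        (𝓝 ‖Sn n F x - Sn n (s j) x‖ₑ) :=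
      (((hcv n x).comp (tendsto_add_atTop_nat j)).sub_const _).enorm
    exact le_of_tendsto' h2 fun k => (h1 k).trans (ENNReal.sum_le_tsum _)
  rw [Metric.tendsto_atTop]
  intro ε hε
  have e3 : 0 < ε / 3 := by positivity
  have hev1 : ∀ᶠ i in atTop, (∑' k, Smax (d (k + i)) x) < ENNReal.ofReal (ε / 3) :=
    htail.eventually_lt_const (by simpa using e3)
  have hev2 : ∀ᶠ i in atTop, dist (s i x) (F x) < ε / 3 := by
    rw [Metric.tendsto_nhds] at hL
    exact hL _ e3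
  obtain ⟨j, hj1, hj2⟩ := (hev1.and hev2).exists
  obtain ⟨N, hN⟩ := Metric.tendsto_atTop.1 (hA j) (ε / 3) e3
  refine ⟨N, fun n hn => ?_⟩
  have k1 : dist (Sn n F x) (Sn n (s j) x) < ε / 3 := by
    have := (hdiff n j).trans_lt hj1
    rw [dist_eq_norm]
    rw [← ofReal_norm] at this
    exact (ENNReal.ofReal_lt_ofReal_iff e3).1 this
  have k2 := hN n hn
  calc dist (Sn n F x) (F x) ≤ dist (Sn n F x) (Sn n (s j) x) + dist (Sn n (s j) x) (F x) :=
        dist_triangle _ _ _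
    _ ≤ dist (Sn n F x) (Sn n (s j) x) + (dist (Sn n (s j) x) (s j x) + dist (s j x) (F x)) := by
        gcongr; exact dist_triangle _ _ _
    _ < ε := by linarith

end

theorem fassemblyC (s : ℕ → ℝ → ℝ) (J : ℕ → Set ℝ) (hs : ∀ j, StepOn (J j) (s j)) (F : ℝ → ℝ)
    (hF : Measurable F) (hsum : ∑' j, NN (fun x => s (j + 1) x - s j x) ≠ ⊤)
    (hlim : ∀ᵐ x ∂mu1, Tendsto (fun j => s j x) atTop (𝓝 (F x))) :
    (Integrable F mu1 ∧ NN F < ⊤) ∧
      ∀ᵐ x ∂mu1, Tendsto (fun n => Sn n F x) atTop (𝓝 (F x)) :=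
  assemblyC ffin fconv s J hs F hF hsum hlim

end Pool.Agent.Y249.Leg
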