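import Pool.Agent.Y249.Leg.LogInt
import Pool.Agent.Y249.Leg.AsmL
import Pool.Agent.Helper187.Leg.Fin1

open MeasureTheory Set Real Filter Topology
open scoped ENNReal

namespace Pool.Agent.Y249.Leg

open Pool.Agent.Helper187.Leg Pool.Agent.Helper187.Leg.CN Pool.Agent.Helper187.Leg.CN.RHC

/-- data of the initial rearrangement (logarithmic form). -/
structure PiecesL (F : ℝ → ℝ) (ε : ℝ) where
  κ : ℝ
  B : ℕ → ℝ
  R0 : Set ℝ
  a : ℕ → ℝ
  b : ℕ → ℝ
  a' : ℕ → ℝ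
  b' : ℕ → ℝ
  hκ : 0 < κ
  hκB : κ ≤ B 0
  hB : Monotone B
  hR0 : StepOn R0 (fun _ => 0)
  hab : ∀ j, -1 < a j ∧ a j < b j ∧ b j < 1
  hab' : ∀ j, 0 ≤ a' j ∧ a' j ≤ b' j ∧ b' j ≤ 1 / 2
  dRZ : ∀ j, Disjoint R0 (Ico (a j) (b j))
  dRI : ∀ j, Disjoint R0 (Ico (a' j) (b' j))
  dZZ : ∀ i j, i ≠ j → Disjoint (Ico (a i) (b i)) (Ico (a j) (b j))
  dII : ∀ i j, i ≠ j → Disjoint (Ico (a' i) (b' i)) (Ico (a' j) (b' j))
  dZI : ∀ i j, Disjoint (Ico (a i) (b i)) (Ico (a' j) (b' j))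
  cover : Ioo (-1) 1 ⊆ R0 ∪ ⋃ j, (Ico (a j) (b j) ∪ Ico (a' j) (b' j))
  bR : ∀ᵐ x ∂mu1, x ∈ R0 → |F x| ≤ B 0
  bZ : ∀ j, ∀ᵐ x ∂mu1, x ∈ Ico (a j) (b j) → κ ≤ |F x| ∧ |F x| ≤ B 0
  zZ : ∀ j, ∫ x in a j..b j, F x = 0
  bI : ∀ j, ∀ᵐ x ∂mu1, x ∈ Ico (a' j) (b' j) → |F x| ≤ B j
  sumZ : Summable fun j => B j * (b j - a j)
  sumI : Summable fun j => B j * (b' j - a' j)
  sumM : Summable fun j => |∫ x in a' j..b' j, F x| * Lg (b' j - a' j)
  small : ∀ n, ∑ j ∈ Finset.range n, ((b j - a j) + (b' j - a' j)) ≤ ε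

theorem Lg_nonneg' {a b : ℝ} (h : 0 ≤ a ∧ a ≤ b ∧ b ≤ 1 / 2) : 0 ≤ Lg (b - a) :=
  (Lg_pos (by linarith [h.2.1]) (by linarith [h.1, h.2.2])).le

/-- the sets on which the step functions live -/
def RR {F : ℝ → ℝ} {ε : ℝ} (S : PiecesL F ε) : ℕ → Set ℝ
  | 0 => S.R0
  | j + 1 => RR S j ∪ (Ico (S.a j) (S.b j) ∪ Ico (S.a' j) (S.b' j))

theorem RR_disjZ {F : ℝ → ℝ} {ε : ℝ} (S : PiecesL F ε) : ∀ j k, j ≤ k →
    Disjoint (RR S j) (Ico (S.a k) (S.b k)) := by
  intro j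
  induction j with
  | zero => intro k _; exact S.dRZ k
  | succ j ih =>
    intro k hk
    unfold RR
    rw [disjoint_union_left, disjoint_union_left]
    exact ⟨ih k (by omega), S.dZZ j k (by omega), (S.dZI k j).symm⟩

theorem RR_disjI {F : ℝ → ℝ} {ε : ℝ} (S : PiecesL F ε) : ∀ j k, j ≤ k →
    Disjoint (RR S j) (Ico (S.a' k) (S.b' k)) := by
  intro j
  induction j with
  | zero => intro k _; exact S.dRI k
  | succ j ih =>
    intro k hk
    unfold RR
    rw [disjoint_union_left, disjoint_union_left]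
    exact ⟨ih k (by omega), S.dZI j k, S.dII j k (by omega)⟩

theorem RR_mono {F : ℝ → ℝ} {ε : ℝ} (S : PiecesL F ε) : Monotone (RR S) := by
  apply monotone_nat_of_le_succ
  intro j
  show RR S j ⊆ RR S (j + 1)
  exact subset_union_left

theorem RR_cover {F : ℝ → ℝ} {ε : ℝ} (S : PiecesL F ε) {x : ℝ} (hx : x ∈ Ioo (-1 : ℝ) 1) :
    ∃ j, x ∈ RR S j := by
  have h := S.cover hx
  rcases h with h | h
  · exact ⟨0, h⟩
  · obtain ⟨j, hj⟩ := mem_iUnion.1 h
    exact ⟨j + 1, Or.inr hj⟩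

theorem ae_cover {F : ℝ → ℝ} {ε : ℝ} (S : PiecesL F ε) : ∀ᵐ x ∂mu1, ∃ j, x ∈ RR S j := by
  have h1 : ∀ᵐ x ∂mu1, x ∈ Icc (-1 : ℝ) 1 := by
    unfold mu1
    exact ae_restrict_mem measurableSet_Icc
  have h2 : ∀ c : ℝ, ∀ᵐ x ∂mu1, x ≠ c := by
    intro c
    have : ∀ᵐ x ∂(volume : Measure ℝ), x ≠ c := by
      rw [ae_iff]
      simp
    exact ae_restrict_of_ae this
  filter_upwards [h1, h2 (-1), h2 1] with x k1 k2 k3
  exact RR_cover S ⟨lt_of_le_of_ne k1.1 (Ne.symm k2), lt_of_le_of_ne k1.2 k3⟩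



def NNIntervalL : Prop := ∀ (r : ℝ), 0 < r → ∃ C : ℝ, 0 < C ∧ ∀ A B : ℝ,
      -1 + r ≤ A → A < B → B ≤ 1 - r →
      NN ((Ico A B).indicator 1) ≤ ENNReal.ofReal (C * ((B - A) * Lg (B - A)))

def AssemblyC : Prop := ∀ (s : ℕ → ℝ → ℝ) (J : ℕ → Set ℝ), (∀ j, StepOn (J j) (s j)) → ∀ (F : ℝ → ℝ),
      Measurable F → ∑' j, NN (fun x => s (j + 1) x - s j x) ≠ ⊤ →
      (∀ᵐ x ∂mu1, Tendsto (fun j => s j x) atTop (𝓝 (F x))) →
      (Integrable F mu1 ∧ NN F < ⊤) ∧ ∀ᵐ x ∂mu1, Tendsto (fun n => Sn n F x) atTop (𝓝 (F x))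

/-- the displacement bounds -/
noncomputable def dd {F : ℝ → ℝ} {ε : ℝ} (S : PiecesL F ε) : ℕ → ℝ
  | 0 => ε / 8
  | j + 1 => ε / 8 * (1 / 2) ^ j + 2 * ((S.b j - S.a j) + (S.b' j - S.a' j))

theorem dd_nonneg {F : ℝ → ℝ} {ε : ℝ} (hε : 0 < ε) (S : PiecesL F ε) : ∀ j, 0 ≤ dd S j := by
  intro j
  cases j with
  | zero => unfold dd; positivity
  | succ j =>
    unfold dd
    have h1 := (S.hab j).2.1
    have h2 := (S.hab' j).2.1
    have h3 : 0 ≤ ε / 8 * (1 / 2 : ℝ) ^ j := by positivity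
    linarith

theorem dd_sum {F : ℝ → ℝ} {ε : ℝ} (hε : 0 < ε) (S : PiecesL F ε) (n : ℕ) :
    ∑ j ∈ Finset.range n, dd S j ≤ 3 * ε := by
  have hmain : ∑ j ∈ Finset.range (n + 1), dd S j ≤ 3 * ε := by
    rw [Finset.sum_range_succ']
    have h1 : ∑ k ∈ Finset.range n, dd S (k + 1) =
        ε / 8 * ∑ k ∈ Finset.range n, (1 / 2 : ℝ) ^ k +
          2 * ∑ k ∈ Finset.range n, ((S.b k - S.a k) + (S.b' k - S.a' k)) := by
      rw [Finset.mul_sum, Finset.mul_sum, ← Finset.sum_add_distrib]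
      rfl
    rw [h1]
    have h2 := S.small n
    have h3 := sum_geometric_two_le n
    have h4 : dd S 0 = ε / 8 := rfl
    rw [h4]
    nlinarith
  refine le_trans ?_ hmain
  apply Finset.sum_le_sum_of_subset_of_nonneg
  · exact Finset.range_mono (by omega)
  · intro i _ _
    exact dd_nonneg hε S i

/-- the norm bounds -/
noncomputable def nn {F : ℝ → ℝ} {ε : ℝ} (S : PiecesL F ε) (C1 C3 : ℝ) (j : ℕ) : ℝ :=
  (1 / 2 : ℝ) ^ j + ((C1 * (S.B j * (S.b j - S.a j)) + ε / 8 * (1 / 2 : ℝ) ^ j + (1 / 2 : ℝ) ^ j) +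
    (C1 * (S.B j * (S.b' j - S.a' j)) + ε / 8 * (1 / 2 : ℝ) ^ j +
      (C3 * (|∫ x in S.a' j..S.b' j, F x| * Lg (S.b' j - S.a' j)) + (1 / 2 : ℝ) ^ j)))

theorem nn_summable {F : ℝ → ℝ} {ε : ℝ} (S : PiecesL F ε) (C1 C3 : ℝ) :
    Summable (nn S C1 C3) := by
  have hg : Summable (fun j : ℕ => (1 / 2 : ℝ) ^ j) := summable_geometric_two
  unfold nn
  exact hg.add ((((S.sumZ.mul_left C1).add (hg.mul_left (ε / 8))).add hg).add
    (((S.sumI.mul_left C1).add (hg.mul_left (ε / 8))).add ((S.sumM.mul_left C3).add hg)))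

theorem construct' (match_on : MatchOnP) (stepApprox : StepApproxP) (NN_interval : NNIntervalL)
    (assembly : AssemblyC) (limit_comps : LimitCompsP) (op1 : ∃ C : ℝ, 0 < C ∧ Op1P C)
    (op2 : ∃ C : ℝ, 0 < C ∧ Op2P C)
    (F : ℝ → ℝ) (hF : Measurable F) (hFi : Integrable F mu1) {ε : ℝ} (hε : 0 < ε)
    (S : PiecesL F ε) :
    ∃ ω : MPI mu1, mu1 {x | ω.f x ≠ x} ≤ ENNReal.ofReal (3 * ε) ∧ NN (F ∘ ω.f) < ⊤ ∧
      ∀ᵐ x ∂mu1, Tendsto (fun n => Sn n (F ∘ ω.f) x) atTop (𝓝 ((F ∘ ω.f) x)) := by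
  classical
  obtain ⟨C1, hC1, op1⟩ := op1
  obtain ⟨C2, hC2, op2⟩ := op2
  obtain ⟨C3, hC3, NI⟩ := NN_interval (1 / 2) (by norm_num)
  have hZfin : ∀ j, NN ((Ico (S.a j) (S.b j)).indicator 1) ≠ ⊤ := by
    intro j
    obtain ⟨h1, h2, h3⟩ := S.hab j
    obtain ⟨C, -, hC⟩ := NN_interval (min (1 + S.a j) (1 - S.b j))
      (lt_min (by linarith) (by linarith))
    refine ne_top_of_le_ne_top ENNReal.ofReal_ne_top (hC (S.a j) (S.b j) ?_ h2 ?_)
    · have := min_le_left (1 + S.a j) (1 - S.b j)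
      linarith
    · have := min_le_right (1 + S.a j) (1 - S.b j)
      linarith
  have hB0 : ∀ j, S.B 0 ≤ S.B j := fun j => S.hB (Nat.zero_le j)
  have hbZ : ∀ j, ∀ᵐ x ∂mu1, x ∈ Ico (S.a j) (S.b j) → S.κ ≤ |F x| := by
    intro j
    filter_upwards [S.bZ j] with x hx h using (hx h).1
  have hP1 : ∀ j, 0 < mu1 (Ico (S.a j) (S.b j) ∩ {x | 0 < F x}) := fun j =>
    pos_mass hF hFi (S.hab j).1 (S.hab j).2.1 (S.hab j).2.2 S.hκ (hbZ j) (S.zZ j)
  have hP2 : ∀ j, 0 < mu1 (Ico (S.a j) (S.b j) ∩ {x | F x < 0}) := fun j =>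
    neg_mass hF hFi (S.hab j).1 (S.hab j).2.1 (S.hab j).2.2 S.hκ (hbZ j) (S.zZ j)
  choose D hD0 hD using fun j : ℕ => exists_D (κ := S.κ) (B := S.B j) (C2 := C2) (C3 := 2 * C3)
    (L := S.b j - S.a j) (NZ := (NN ((Ico (S.a j) (S.b j)).indicator 1)).toReal)
    (A := ε / 8 * (1 / 2) ^ j) (A' := (1 / 2 : ℝ) ^ j) S.hκ (hP1 j) (hP2 j) (by positivity)
    (by positivity)
  -- meshes
  set δ : ℕ → ℝ := dl D with hδdef
  have hδ0 : ∀ j, 0 < δ j := dl_pos hD0
  have hδD : ∀ j, δ j ≤ D j := dl_le hD0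
  -- the sequence of states
  obtain ⟨u, hu, hrel⟩ := exists_seq_dep (α := MPI mu1 × (MPI mu1 × (ℝ → ℝ)))
    (fun j p => InvL F (RR S j) (δ j) (S.B j) (F ∘ p.2.1.f) p.2.2 ∧
      (j = 0 → p.2.1.f = p.1.f ∧ mu1 {x | p.1.f x ≠ x} ≤ ENNReal.ofReal (dd S 0)))
    (fun j p q => q.2.1.f = p.2.1.f ∘ q.1.f ∧
      mu1 {x | q.1.f x ≠ x} ≤ ENNReal.ofReal (dd S (j + 1)) ∧
      NN (fun x => q.2.2 x - p.2.2 x) ≤ ENNReal.ofReal (nn S C1 C3 j))
    (by
      obtain ⟨τ, s, h1, h2, h3, h4⟩ := stage0 match_on stepApprox hF S.hR0 (hδ0 0)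
        (by positivity : 0 < ε / 8) S.bR
      exact ⟨(τ, (τ, s)), ⟨h1, h2, h3⟩, fun _ => ⟨rfl, h4⟩⟩)
    (by
      rintro j ⟨τ, ω, s⟩ ⟨hinv, -⟩
      simp only at hinv
      have hG : Measurable (F ∘ ω.f) := hF.comp ω.f_mp.measurable
      have hGi : Integrable (F ∘ ω.f) mu1 :=
        (ω.f_mp.integrable_comp hF.aestronglyMeasurable).mpr hFi
      obtain ⟨d1, d2, d3, d4, d5, d6, d7⟩ := hD j (δ j) (hδ0 j) (hδD j)
      have hbZ' : ∀ᵐ x ∂mu1, x ∈ Ico (S.a j) (S.b j) → S.κ ≤ |F x| ∧ |F x| ≤ S.B j := by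
        filter_upwards [S.bZ j] with x hx h
        exact ⟨(hx h).1, (hx h).2.trans (hB0 j)⟩
      obtain ⟨τ', s', i1, i2, i3⟩ := step_trans hC2 op1 op2 hG hGi hinv (S.hab j).1 (S.hab j).2.1
        (S.hab j).2.2 (S.hab' j).1 (S.hab' j).2.1 (S.hab' j).2.2 (RR_disjZ S j j le_rfl)
        (RR_disjI S j j le_rfl) (S.dZI j j) S.hκ (S.hκB.trans (hB0 j))
        (S.hB (Nat.le_succ j)) (hδ0 j) (Nat.succ_pos ⌈dl D j / D (j + 1)⌉₊) d1 hbZ' (S.zZ j)
        (S.bI j) d2 d3 (hδ0 j)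
      refine ⟨(τ', (mpiComp ω τ', s')), ⟨?_, fun h => absurd h (Nat.succ_ne_zero j)⟩, rfl, ?_, ?_⟩
      · exact i1
      · refine i2.trans ?_
        have hab := (S.hab j).2.1
        have hab' := (S.hab' j).2.1
        rw [← ENNReal.ofReal_add (by have := hδ0 j; have := S.hκ; positivity) (by linarith),
          ← ENNReal.ofReal_add (by have := hδ0 j; have := S.hκ; have : 0 ≤ 8 * δ j / S.κ + δ j := by positivity
                                   linarith) (by linarith),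
          ← ENNReal.ofReal_add (by have := hδ0 j; have := S.hκ; have : 0 ≤ 8 * δ j / S.κ + δ j := by positivity
                                   linarith) (by linarith)]
        apply ENNReal.ofReal_le_ofReal
        show _ ≤ ε / 8 * (1 / 2) ^ j + 2 * ((S.b j - S.a j) + (S.b' j - S.a' j))
        linarith
      · have hab := (S.hab j).2.1
        have hab' := (S.hab' j).2.1
        have hδj := hδ0 j
        have hκ := S.hκ
        have hBj : 0 ≤ S.B j := hκ.le.trans (S.hκB.trans (hB0 j))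
        have hδe : δ j ≤ ε / 8 * (1 / 2) ^ j := by
          have : 0 ≤ 8 * δ j / S.κ := by positivity
          linarith
        refine i3.trans ?_
        have t1 : ENNReal.ofReal (C2 * (δ j + S.B j * √(δ j / S.κ)) + δ j) ≤
            ENNReal.ofReal ((1 / 2 : ℝ) ^ j) := ENNReal.ofReal_le_ofReal d5
        have t2 : ENNReal.ofReal (C1 * S.B j * (S.b j - S.a j) + δ j) +
            ENNReal.ofReal ((4 * δ j + (C2 * (δ j + S.B j * √(δ j / S.κ)) + δ j)) /
              (S.b j - S.a j) + δ j) * NN ((Ico (S.a j) (S.b j)).indicator 1) ≤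
            ENNReal.ofReal (C1 * (S.B j * (S.b j - S.a j)) + ε / 8 * (1 / 2 : ℝ) ^ j
              + (1 / 2 : ℝ) ^ j) := by
          have hb1 : 0 ≤ S.B j * (S.b j - S.a j) := mul_nonneg hBj (by linarith)
          have hsp : ENNReal.ofReal (C1 * (S.B j * (S.b j - S.a j)) + ε / 8 * (1 / 2 : ℝ) ^ j
              + (1 / 2 : ℝ) ^ j) = ENNReal.ofReal (C1 * (S.B j * (S.b j - S.a j))
                + ε / 8 * (1 / 2 : ℝ) ^ j) + ENNReal.ofReal ((1 / 2 : ℝ) ^ j) :=
            ENNReal.ofReal_add (by positivity) (by positivity)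
          rw [hsp]
          apply add_le_add
          · apply ENNReal.ofReal_le_ofReal
            linarith
          · rw [← ENNReal.ofReal_toReal (hZfin j), ← ENNReal.ofReal_mul' ENNReal.toReal_nonneg]
            exact ENNReal.ofReal_le_ofReal d6
        have t3 : ENNReal.ofReal (C1 * S.B j * (S.b' j - S.a' j) + δ j) +
            ENNReal.ofReal (|∫ x in S.a' j..S.b' j, F x| / (S.b' j - S.a' j) + δ j) *
              NN ((Ico (S.a' j) (S.b' j)).indicator 1) ≤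
            ENNReal.ofReal (C1 * (S.B j * (S.b' j - S.a' j)) + ε / 8 * (1 / 2 : ℝ) ^ j +
              (C3 * (|∫ x in S.a' j..S.b' j, F x| * Lg (S.b' j - S.a' j))
                + (1 / 2 : ℝ) ^ j)) := by
          have hb1 : 0 ≤ S.B j * (S.b' j - S.a' j) := mul_nonneg hBj (by linarith)
          have hb2 : 0 ≤ Lg (S.b' j - S.a' j) := Lg_nonneg' (S.hab' j)
          have hsp : ENNReal.ofReal (C1 * (S.B j * (S.b' j - S.a' j)) + ε / 8 * (1 / 2 : ℝ) ^ j +
              (C3 * (|∫ x in S.a' j..S.b' j, F x| * Lg (S.b' j - S.a' j))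
                + (1 / 2 : ℝ) ^ j)) = ENNReal.ofReal (C1 * (S.B j * (S.b' j - S.a' j))
                + ε / 8 * (1 / 2 : ℝ) ^ j) + ENNReal.ofReal
              (C3 * (|∫ x in S.a' j..S.b' j, F x| * Lg (S.b' j - S.a' j))
                + (1 / 2 : ℝ) ^ j) := ENNReal.ofReal_add (by positivity) (by positivity)
          rw [hsp]
          apply add_le_add
          · apply ENNReal.ofReal_le_ofReal
            linarith
          · rcases eq_or_lt_of_le hab' with heq | hlt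
            · rw [← heq, NN_empty_ind, mul_zero]
              exact zero_le
            · have hI := NI (S.a' j) (S.b' j) (by have := (S.hab' j).1; linarith) hlt
                (by have := (S.hab' j).2.2; linarith)
              have hL : 0 < S.b' j - S.a' j := by linarith
              have hL1 : S.b' j - S.a' j ≤ 1 := by
                have := (S.hab' j).2.2
                have := (S.hab' j).1
                linarith
              calc ENNReal.ofReal (|∫ x in S.a' j..S.b' j, F x| / (S.b' j - S.a' j) + δ j) *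
                  NN ((Ico (S.a' j) (S.b' j)).indicator 1)
                  ≤ ENNReal.ofReal (|∫ x in S.a' j..S.b' j, F x| / (S.b' j - S.a' j) + δ j) *
                    ENNReal.ofReal (C3 * ((S.b' j - S.a' j) * Lg (S.b' j - S.a' j))) := by gcongr
                _ = ENNReal.ofReal ((|∫ x in S.a' j..S.b' j, F x| / (S.b' j - S.a' j) + δ j) *
                    (C3 * ((S.b' j - S.a' j) * Lg (S.b' j - S.a' j)))) :=
                    (ENNReal.ofReal_mul (by positivity)).symm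
                _ ≤ _ := by
                    apply ENNReal.ofReal_le_ofReal
                    have hp1 : (S.b' j - S.a' j) * Lg (S.b' j - S.a' j) ≤ 2 := mul_Lg_le hL hL1
                    have e1 : (|∫ x in S.a' j..S.b' j, F x| / (S.b' j - S.a' j) + δ j) *
                      (C3 * ((S.b' j - S.a' j) * Lg (S.b' j - S.a' j))) =
                      C3 * (|∫ x in S.a' j..S.b' j, F x| * Lg (S.b' j - S.a' j)) +
                      (C3 * δ j) * ((S.b' j - S.a' j) * Lg (S.b' j - S.a' j)) := by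
                      field_simp
                    rw [e1]
                    have h5 : (C3 * δ j) * ((S.b' j - S.a' j) * Lg (S.b' j - S.a' j)) ≤ (C3 * δ j) * 2 :=
                      mul_le_mul_of_nonneg_left hp1 (by positivity)
                    linarith
        have hb1 : 0 ≤ S.B j * (S.b j - S.a j) := mul_nonneg hBj (by linarith)
        have hb1' : 0 ≤ S.B j * (S.b' j - S.a' j) := mul_nonneg hBj (by linarith)
        have hb2 : 0 ≤ Lg (S.b' j - S.a' j) := Lg_nonneg' (S.hab' j)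
        refine (add_le_add t1 (add_le_add t2 t3)).trans (le_of_eq ?_)
        unfold nn
        have hX : 0 ≤ (1 / 2 : ℝ) ^ j := by positivity
        have hY : 0 ≤ C1 * (S.B j * (S.b j - S.a j)) + ε / 8 * (1 / 2 : ℝ) ^ j
              + (1 / 2 : ℝ) ^ j := by positivity
        have hW : 0 ≤ C1 * (S.B j * (S.b' j - S.a' j)) + ε / 8 * (1 / 2 : ℝ) ^ j +
              (C3 * (|∫ x in S.a' j..S.b' j, F x| * Lg (S.b' j - S.a' j))
                + (1 / 2 : ℝ) ^ j) := by positivity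
        rw [← ENNReal.ofReal_add hY hW, ← ENNReal.ofReal_add hX (add_nonneg hY hW)])
  -- the maps
  set τ : ℕ → MPI mu1 := fun j => (u j).1 with hτ
  have hcomps : ∀ j, comps τ (j + 1) = (u j).2.1.f := by
    intro j
    induction j with
    | zero =>
      show id ∘ (τ 0).f = _
      rw [((hu 0).2 rfl).1]
      rfl
    | succ j ih =>
      show comps τ (j + 1) ∘ (τ (j + 1)).f = _
      rw [ih, (hrel j).1]
  have hdisp : ∀ j, mu1 {x | (τ j).f x ≠ x} ≤ ENNReal.ofReal (dd S j) := by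
    intro j
    cases j with
    | zero => exact ((hu 0).2 rfl).2
    | succ j => exact (hrel j).2.1
  have hsum : ∑' j, mu1 {x | (τ j).f x ≠ x} ≤ ENNReal.ofReal (3 * ε) := by
    apply ENNReal.tsum_le_of_sum_range_le
    intro n
    calc ∑ j ∈ Finset.range n, mu1 {x | (τ j).f x ≠ x}
        ≤ ∑ j ∈ Finset.range n, ENNReal.ofReal (dd S j) := Finset.sum_le_sum fun j _ => hdisp j
      _ = ENNReal.ofReal (∑ j ∈ Finset.range n, dd S j) :=
          (ENNReal.ofReal_sum_of_nonneg fun j _ => dd_nonneg hε S j).symm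
      _ ≤ _ := ENNReal.ofReal_le_ofReal (dd_sum hε S n)
  obtain ⟨ω, w1, -, w3⟩ := limit_comps τ (ne_top_of_le_ne_top ENNReal.ofReal_ne_top hsum)
  refine ⟨ω, w3.trans hsum, ?_⟩
  have hNsum : ∑' j, NN (fun x => (u (j + 1)).2.2 x - (u j).2.2 x) ≠ ⊤ := by
    have hnn : ∀ j, 0 ≤ nn S C1 C3 j := by
      intro j
      have hab := (S.hab j).2.1
      have hab' := (S.hab' j).2.1
      have hκ := S.hκ
      have hBj : 0 ≤ S.B j := hκ.le.trans (S.hκB.trans (hB0 j))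
      have hb1 : 0 ≤ S.B j * (S.b j - S.a j) := mul_nonneg hBj (by linarith)
      have hb1' : 0 ≤ S.B j * (S.b' j - S.a' j) := mul_nonneg hBj (by linarith)
      have hb2 : 0 ≤ Lg (S.b' j - S.a' j) := Lg_nonneg' (S.hab' j)
      unfold nn
      positivity
    refine ne_top_of_le_ne_top ?_ (ENNReal.tsum_le_tsum fun j => (hrel j).2.2)
    rw [← ENNReal.ofReal_tsum_of_nonneg hnn (nn_summable S C1 C3)]
    exact ENNReal.ofReal_ne_top
  have hδ_lim : Tendsto δ atTop (𝓝 0) := by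
    have h1 : ∀ j, δ j ≤ ε / 8 * (1 / 2) ^ j := by
      intro j
      obtain ⟨-, -, -, d4, -⟩ := hD j (δ j) (hδ0 j) (hδD j)
      have := hδ0 j
      have := S.hκ
      have : 0 ≤ 8 * δ j / S.κ := by positivity
      linarith
    have h2 : Tendsto (fun j : ℕ => ε / 8 * (1 / 2 : ℝ) ^ j) atTop (𝓝 0) := by
      have := (tendsto_pow_atTop_nhds_zero_of_lt_one (by norm_num : (0 : ℝ) ≤ 1 / 2)
        (by norm_num)).const_mul (ε / 8)
      simpa using this
    exact squeeze_zero (fun j => (hδ0 j).le) h1 h2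
  have hlim : ∀ᵐ x ∂mu1, Tendsto (fun j => (u j).2.2 x) atTop (𝓝 ((F ∘ ω.f) x)) := by
    have hall : ∀ᵐ x ∂mu1, ∀ j, x ∈ RR S j → QQ (δ j) (F ((u j).2.1.f x)) = (u j).2.2 x := by
      rw [ae_all_iff]
      intro j
      filter_upwards [(hu j).1.2.1] with x hx h
      exact (hx h).1
    filter_upwards [hall, w1, ae_cover S] with x h1 h2 h3
    obtain ⟨j0, hj0⟩ := h3
    obtain ⟨j1, hj1⟩ := eventually_atTop.1 h2
    rw [tendsto_iff_norm_sub_tendsto_zero]
    apply squeeze_zero' (Eventually.of_forall fun j => norm_nonneg _) _ hδ_lim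
    rw [eventually_atTop]
    refine ⟨max j0 j1, fun j hj => ?_⟩
    have hjR : x ∈ RR S j := RR_mono S (le_trans (le_max_left _ _) hj) hj0
    have hjc : comps τ (j + 1) x = ω.f x := hj1 (j + 1) (by
      have := le_trans (le_max_right j0 j1) hj
      omega)
    rw [hcomps] at hjc
    rw [← h1 j hjR, hjc]
    exact QQ_close (hδ0 j) _
  exact (assembly (fun j => (u j).2.2) (RR S) (fun j => (hu j).1.1) (F ∘ ω.f)
    (hF.comp ω.f_mp.measurable) hNsum hlim).imp_left And.right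


theorem constructL (F : ℝ → ℝ) (hF : Measurable F) (hFi : Integrable F mu1) {ε : ℝ} (hε : 0 < ε)
    (S : PiecesL F ε) :
    ∃ ω : MPI mu1, mu1 {x | ω.f x ≠ x} ≤ ENNReal.ofReal (3 * ε) ∧ NN (F ∘ ω.f) < ⊤ ∧
      ∀ᵐ x ∂mu1, Tendsto (fun n => Sn n (F ∘ ω.f) x) atTop (𝓝 ((F ∘ ω.f) x)) :=
  construct' fmatch_on fstepApprox NN_interval_log fassemblyC (fun τ h => C2.limit_comps mu1 τ h)
    (O1.op1 fsorted fmatch_on blockThm) (O2.op2 fsorted fmatch_on farrange fstepApprox blockThm) F hF hFi hε S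

end Pool.Agent.Y249.Leg
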