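import Pool.Agent.Y249.Leg.ConstructL

open MeasureTheory Set Real Filter Topology
open scoped ENNReal

namespace Pool.Agent.Y249.Leg

open Pool.Agent.Helper187.Leg Pool.Agent.Helper187.Leg.I1

theorem initArrL
    (match_levels : ∀ (u v : ℝ → ℕ), Measurable u → Measurable v →
      (∀ i, mu1 (u ⁻¹' {i}) = mu1 (v ⁻¹' {i})) →
      ∃ τ : MPI mu1, (∀ᵐ x ∂mu1, u (τ.f x) = v x) ∧ (∀ᵐ x ∂mu1, u x = v x → τ.f x = x))
    (f : ℝ → ℝ) (hf : Measurable f) (hfi : Integrable f mu1) (κ M : ℝ)
    (B : ℕ → ℝ) (E : ℕ → Set ℝ) (hκ : 0 < κ) (hκB : κ ≤ B 0) (hMB : M ≤ B 0)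
    (hB : Monotone B) (hB2 : ∀ j, B j ≤ B 0 * 2 ^ j)
    (hE : ∀ k, MeasurableSet (E k)) (hEd : ∀ i j, i ≠ j → Disjoint (E i) (E j))
    (hEb : ∀ k, ∀ x ∈ E k, |f x| ≤ B k) (hE0 : ∀ k, ∀ x ∈ E k, M < |f x|)
    (hoff : ∀ x, (∀ k, x ∉ E k) → |f x| ≤ B 0)
    (hpos : 0 < mu1 {x | κ ≤ f x ∧ f x ≤ M}) (hneg : 0 < mu1 {x | κ ≤ -f x ∧ -f x ≤ M})
    (hsumE : Summable fun k => B k * (mu1 (E k)).toReal)
    (hsumM : Summable fun k => |∫ x in E k, f x ∂mu1| * Lg (mu1 (E k)).toReal)
    {ε : ℝ} (hε : 0 < ε) (hεE : ∀ n, ∑ k ∈ Finset.range n, (mu1 (E k)).toReal ≤ ε)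
    (hε1 : ε ≤ 1 / 4) :
    ∃ τ : MPI mu1, mu1 {x | τ.f x ≠ x} ≤ ENNReal.ofReal (4 * ε) ∧
      Nonempty (PiecesL (f ∘ τ.f) (2 * ε)) := by
  classical
  -- slices
  obtain ⟨qa, hqa, hA⟩ := slices f hf hfi hκ hpos
  obtain ⟨qb, hqb, hD⟩ := slices (fun x => - f x) hf.neg hfi.neg hκ hneg
  have hM : κ ≤ M := by
    by_contra hc
    push Not at hc
    have : {x | κ ≤ f x ∧ f x ≤ M} = ∅ := by
      ext x
      simp only [mem_ofPred_eq, mem_empty_iff_false, iff_false]
      rintro ⟨h1, h2⟩
      linarith
    rw [this] at hpos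
    simp at hpos
  set c : ℝ := min (min qa qb) (κ * ε) / 4 with hc
  have hcpos : 0 < c := by
    have : 0 < min (min qa qb) (κ * ε) := lt_min (lt_min hqa hqb) (mul_pos hκ hε)
    positivity
  set q : ℕ → ℝ := fun j => c * (1 / 4) ^ j with hq
  have hqpos : ∀ j, 0 < q j := fun j => by simp only [hq]; positivity
  have hqs : ∀ n, ∑ j ∈ Finset.range n, q j ≤ 4 / 3 * c := by
    intro n
    simp only [hq]
    rw [← Finset.mul_sum, geom_sum_eq (by norm_num)]
    have : (0 : ℝ) ≤ (1 / 4) ^ n := by positivity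
    have h2 : ((1 / 4 : ℝ) ^ n - 1) / (1 / 4 - 1) ≤ 4 / 3 := by
      rw [div_le_iff_of_neg (by norm_num)]
      linarith
    nlinarith
  have hcm : 4 * c = min (min qa qb) (κ * ε) := by rw [hc]; ring
  have hcqa : 4 * c ≤ qa := by rw [hcm]; exact (min_le_left _ _).trans (min_le_left _ _)
  have hcqb : 4 * c ≤ qb := by rw [hcm]; exact (min_le_left _ _).trans (min_le_right _ _)
  have hcε : 4 * c ≤ κ * ε := by rw [hcm]; exact min_le_right _ _
  obtain ⟨A, hAm, hAd, hAP, hAi⟩ := hA q hqpos (fun n => (hqs n).trans (by linarith))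
  obtain ⟨D, hDm, hDd, hDP, hDi⟩ := hD q hqpos (fun n => (hqs n).trans (by linarith))
  -- sizes
  have hsize : ∀ (g : ℝ → ℝ) (_ : Integrable g mu1) (X : Set ℝ) (_ : MeasurableSet X)
      (_ : ∀ x ∈ X, κ ≤ g x) (j : ℕ) (_ : ∫ x in X, g x ∂mu1 = q j),
      0 < (mu1 X).toReal ∧ κ * (mu1 X).toReal ≤ q j := by
    intro g hg X hX hXg j hj
    constructor
    · by_contra h0
      have h1 : (mu1 X).toReal = 0 := le_antisymm (not_lt.1 h0) ENNReal.toReal_nonneg
      have h2 : mu1 X = 0 := by
        rcases (ENNReal.toReal_eq_zero_iff _).1 h1 with h | h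
        · exact h
        · exact absurd h (measure_ne_top _ _)
      rw [Measure.restrict_eq_zero.2 h2, integral_zero_measure] at hj
      have := hqpos j
      linarith
    · have := setIntegral_mono_on (μ := mu1) (s := X) (f := fun _ => κ) (g := g)
        (integrable_const κ).integrableOn hg.integrableOn hX hXg
      simp only [setIntegral_const, smul_eq_mul] at this
      rw [hj] at this
      rw [mul_comm]
      exact this
  have hAs : ∀ j, 0 < (mu1 (A j)).toReal ∧ κ * (mu1 (A j)).toReal ≤ q j := fun j =>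
    hsize f hfi (A j) (hAm j) (fun x hx => (hAP j hx).1) j (hAi j)
  have hDs : ∀ j, 0 < (mu1 (D j)).toReal ∧ κ * (mu1 (D j)).toReal ≤ q j := fun j =>
    hsize _ hfi.neg (D j) (hDm j) (fun x hx => (hDP j hx).1) j (hDi j)
  set ζ : ℕ → ℝ := fun j => (mu1 (A j)).toReal + (mu1 (D j)).toReal with hζ
  have hζpos : ∀ j, 0 < ζ j := fun j => add_pos (hAs j).1 (hDs j).1
  have hζq : ∀ j, κ * ζ j ≤ 2 * q j := by
    intro j
    simp only [hζ]
    linarith [(hAs j).2, (hDs j).2]
  have hζs : ∀ n, ∑ j ∈ Finset.range n, ζ j ≤ ε := by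
    intro n
    have h1 : κ * ∑ j ∈ Finset.range n, ζ j ≤ 2 * ∑ j ∈ Finset.range n, q j := by
      rw [Finset.mul_sum, Finset.mul_sum]
      exact Finset.sum_le_sum (fun j _ => hζq j)
    have h2 := hqs n
    have h3 : κ * ∑ j ∈ Finset.range n, ζ j ≤ κ * ε := by linarith
    exact le_of_mul_le_mul_left h3 hκ
  have hAD : ∀ i j, Disjoint (A i) (D j) := by
    intro i j
    rw [Set.disjoint_left]
    intro x hx hy
    have h1 := (hAP i hx).1
    have h2 := (hDP j hy).1
    linarith
  have hAE : ∀ i k, Disjoint (A i) (E k) := by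
    intro i k
    rw [Set.disjoint_left]
    intro x hx hy
    have h1 := hAP i hx
    have h2 := hE0 k x hy
    rw [abs_of_pos (hκ.trans_le h1.1)] at h2
    linarith [h1.2]
  have hDE : ∀ i k, Disjoint (D i) (E k) := by
    intro i k
    rw [Set.disjoint_left]
    intro x hx hy
    have h1 := hDP i hx
    have h2 := hE0 k x hy
    have h3 : f x < 0 := by linarith [h1.1]
    rw [abs_of_neg h3] at h2
    linarith [h1.2]
  have hmAD : ∀ j, mu1 (A j ∪ D j) = ENNReal.ofReal (ζ j) := by
    intro j
    rw [measure_union (hAD j j) (hDm j)]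
    simp only [hζ]
    rw [ENNReal.ofReal_add ENNReal.toReal_nonneg ENNReal.toReal_nonneg,
      ENNReal.ofReal_toReal (measure_ne_top _ _), ENNReal.ofReal_toReal (measure_ne_top _ _)]
  -- the source sets
  set S : ℕ → Set ℝ := fun n => if Even n then A (n / 2) ∪ D (n / 2) else E (n / 2) with hS
  have hS0 : ∀ j, S (2 * j) = A j ∪ D j := by
    intro j
    simp [hS]
  have hS1 : ∀ j, S (2 * j + 1) = E j := by
    intro j
    have h1 : ¬ Even (2 * j + 1) := by simp [parity_simps]
    have h2 : (2 * j + 1) / 2 = j := by omega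
    simp only [hS, h1, if_false, h2]
  have hSm : ∀ n, MeasurableSet (S n) := by
    intro n
    rcases Nat.even_or_odd' n with ⟨p, rfl | rfl⟩
    · rw [hS0]; exact (hAm p).union (hDm p)
    · rw [hS1]; exact hE p
  have hSd : ∀ i j, i ≠ j → Disjoint (S i) (S j) := by
    intro i j hij
    rcases Nat.even_or_odd' i with ⟨p, rfl | rfl⟩ <;> rcases Nat.even_or_odd' j with ⟨r, rfl | rfl⟩
    · have hpr : p ≠ r := by rintro rfl; exact hij rfl
      rw [hS0, hS0]
      exact Disjoint.union_left (Disjoint.union_right (hAd _ _ hpr) (hAD _ _))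
        (Disjoint.union_right (hAD _ _).symm (hDd _ _ hpr))
    · rw [hS0, hS1]
      exact Disjoint.union_left (hAE _ _) (hDE _ _)
    · rw [hS0, hS1]
      exact (Disjoint.union_left (hAE _ _) (hDE _ _)).symm
    · have hpr : p ≠ r := by rintro rfl; exact hij rfl
      rw [hS1, hS1]
      exact hEd _ _ hpr
  -- placement
  have hev : ∀ n, ∑ i ∈ Finset.range n, ζ (2 * i) ≤ ε ∧ ∑ i ∈ Finset.range n, ζ (2 * i + 1) ≤ ε := by
    have key : ∀ n, ∑ i ∈ Finset.range n, ζ (2 * i) + ∑ i ∈ Finset.range n, ζ (2 * i + 1) =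
        ∑ i ∈ Finset.range (2 * n), ζ i := by
      intro n
      induction n with
      | zero => simp
      | succ n ih =>
        rw [Finset.sum_range_succ, Finset.sum_range_succ, show 2 * (n + 1) = 2 * n + 1 + 1 by ring,
          Finset.sum_range_succ, Finset.sum_range_succ, ← ih]
        ring
    intro n
    have h1 := key n
    have h2 := hζs (2 * n)
    have h3 : 0 ≤ ∑ i ∈ Finset.range n, ζ (2 * i) := Finset.sum_nonneg (fun i _ => (hζpos _).le)
    have h4 : 0 ≤ ∑ i ∈ Finset.range n, ζ (2 * i + 1) :=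
      Finset.sum_nonneg (fun i _ => (hζpos _).le)
    constructor <;> linarith
  obtain ⟨Y, hY1, hYpos, hYc, hYt⟩ := tails (fun i => ζ (2 * i)) (fun i => hζpos _)
    (fun n => (hev n).1)
  obtain ⟨W, hW1, hWpos, hWc, hWt⟩ := tails (fun i => ζ (2 * i + 1)) (fun i => hζpos _)
    (fun n => (hev n).2)
  have hYanti : Antitone Y := antitone_nat_of_succ_le (fun i => by
    have := hY1 i; have := hζpos (2 * i); linarith)
  have hWanti : Antitone W := antitone_nat_of_succ_le (fun i => by
    have := hW1 i; have := hζpos (2 * i + 1); linarith)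
  set η : ℕ → ℝ := fun k => (mu1 (E k)).toReal with hη
  have hηnn : ∀ k, 0 ≤ η k := fun k => ENNReal.toReal_nonneg
  set X : ℕ → ℝ := fun k => ∑ i ∈ Finset.range k, η i with hX
  have hXs : ∀ k, X (k + 1) = X k + η k := fun k => Finset.sum_range_succ _ _
  have hXmono : Monotone X := monotone_nat_of_le_succ (fun k => by
    have := hXs k; have := hηnn k; linarith)
  have hX0 : X 0 = 0 := by simp [hX]
  have hXle : ∀ k, X k ≤ ε := fun k => hεE k
  have hbdd : BddAbove (range X) := ⟨ε, by rintro _ ⟨k, rfl⟩; exact hXle k⟩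
  set xi : ℝ := ⨆ k, X k with hxi
  have hXxi : ∀ k, X k ≤ xi := fun k => le_ciSup hbdd k
  have hxiε : xi ≤ ε := ciSup_le hXle
  have hxi0 : 0 ≤ xi := hX0 ▸ hXxi 0
  set a : ℕ → ℝ := fun j => if Even j then -1 + Y (j / 2 + 1) else 1 - W (j / 2) with ha
  set b : ℕ → ℝ := fun j => if Even j then -1 + Y (j / 2) else 1 - W (j / 2 + 1) with hb
  have ha0 : ∀ p, a (2 * p) = -1 + Y (p + 1) := by
    intro p
    simp [ha]
  have hb0 : ∀ p, b (2 * p) = -1 + Y p := by
    intro p
    simp [hb]
  have ha1 : ∀ p, a (2 * p + 1) = 1 - W p := by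
    intro j
    have h1 : ¬ Even (2 * j + 1) := by simp [parity_simps]
    have h2 : (2 * j + 1) / 2 = j := by omega
    simp only [ha, h1, if_false, h2]
  have hb1 : ∀ p, b (2 * p + 1) = 1 - W (p + 1) := by
    intro j
    have h1 : ¬ Even (2 * j + 1) := by simp [parity_simps]
    have h2 : (2 * j + 1) / 2 = j := by omega
    simp only [hb, h1, if_false, h2]
  have hba : ∀ j, b j - a j = ζ j := by
    intro j
    rcases Nat.even_or_odd' j with ⟨p, rfl | rfl⟩
    · rw [ha0, hb0, hY1 p]; ring
    · rw [ha1, hb1, hW1 p]; ring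
  have hYle : ∀ i, Y i ≤ 1 / 4 := fun i => (hYanti (Nat.zero_le i)).trans (by linarith)
  have hWle : ∀ i, W i ≤ 1 / 4 := fun i => (hWanti (Nat.zero_le i)).trans (by linarith)
  have hloc : ∀ j, (-1 < a j ∧ b j ≤ -3 / 4) ∨ (3 / 4 ≤ a j ∧ b j < 1) := by
    intro j
    rcases Nat.even_or_odd' j with ⟨p, rfl | rfl⟩
    · left
      rw [ha0, hb0]
      exact ⟨by linarith [hYpos (p + 1)], by linarith [hYle p]⟩
    · right
      rw [ha1, hb1]
      exact ⟨by linarith [hWle p], by linarith [hWpos (p + 1)]⟩
  have hab : ∀ j, -1 < a j ∧ a j < b j ∧ b j < 1 := by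
    intro j
    have h1 := hba j
    have h2 := hζpos j
    rcases hloc j with h | h
    · exact ⟨h.1, by linarith, by linarith [h.2]⟩
    · exact ⟨by linarith [h.1], by linarith, h.2⟩
  have hI : ∀ k, 0 ≤ X k ∧ X k ≤ X (k + 1) ∧ X (k + 1) ≤ 1 / 4 := by
    intro k
    refine ⟨hX0 ▸ hXmono (Nat.zero_le k), hXmono (Nat.le_succ k), (hXle _).trans hε1⟩
  have dZZ : ∀ i j, i ≠ j → Disjoint (Ico (a i) (b i)) (Ico (a j) (b j)) := by
    intro i j hij
    rcases Nat.even_or_odd' i with ⟨p, rfl | rfl⟩ <;> rcases Nat.even_or_odd' j with ⟨r, rfl | rfl⟩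
    · have hpr : p ≠ r := by rintro rfl; exact hij rfl
      rw [ha0, hb0, ha0, hb0]
      apply Idisj
      rcases lt_or_gt_of_ne hpr with h | h
      · right
        have := hYanti (Nat.succ_le_of_lt h)
        simp only [Nat.succ_eq_add_one] at this
        linarith
      · left
        have := hYanti (Nat.succ_le_of_lt h)
        simp only [Nat.succ_eq_add_one] at this
        linarith
    · apply Idisj
      left
      rw [hb0, ha1]
      linarith [hYle p, hWle r]
    · apply Idisj
      right
      rw [hb0, ha1]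
      linarith [hYle r, hWle p]
    · have hpr : p ≠ r := by rintro rfl; exact hij rfl
      rw [ha1, hb1, ha1, hb1]
      apply Idisj
      rcases lt_or_gt_of_ne hpr with h | h
      · left
        have := hWanti (Nat.succ_le_of_lt h)
        simp only [Nat.succ_eq_add_one] at this
        linarith
      · right
        have := hWanti (Nat.succ_le_of_lt h)
        simp only [Nat.succ_eq_add_one] at this
        linarith
  have dII : ∀ i j, i ≠ j → Disjoint (Ico (X i) (X (i + 1))) (Ico (X j) (X (j + 1))) := by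
    intro i j hij
    apply Idisj
    rcases lt_or_gt_of_ne hij with h | h
    · left; exact hXmono h
    · right; exact hXmono h
  have dZI : ∀ i j, Disjoint (Ico (a i) (b i)) (Ico (X j) (X (j + 1))) := by
    intro i j
    apply Idisj
    rcases hloc i with h | h
    · left; linarith [h.2, (hI j).1]
    · right; linarith [h.1, (hI j).2.2]
  -- target sets
  set T : ℕ → Set ℝ := fun n => if Even n then Ico (a (n / 2)) (b (n / 2))
    else Ico (X (n / 2)) (X (n / 2 + 1)) with hT
  have hT0 : ∀ j, T (2 * j) = Ico (a j) (b j) := by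
    intro j
    simp [hT]
  have hT1 : ∀ j, T (2 * j + 1) = Ico (X j) (X (j + 1)) := by
    intro j
    have h1 : ¬ Even (2 * j + 1) := by simp [parity_simps]
    have h2 : (2 * j + 1) / 2 = j := by omega
    simp only [hT, h1, if_false, h2]
  have hTm : ∀ n, MeasurableSet (T n) := by
    intro n
    rcases Nat.even_or_odd' n with ⟨p, rfl | rfl⟩
    · rw [hT0]; exact measurableSet_Ico
    · rw [hT1]; exact measurableSet_Ico
  have hTd : ∀ i j, i ≠ j → Disjoint (T i) (T j) := by
    intro i j hij
    rcases Nat.even_or_odd' i with ⟨p, rfl | rfl⟩ <;> rcases Nat.even_or_odd' j with ⟨r, rfl | rfl⟩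
    · have hpr : p ≠ r := by rintro rfl; exact hij rfl
      rw [hT0, hT0]
      exact dZZ _ _ hpr
    · rw [hT0, hT1]
      exact dZI _ _
    · rw [hT0, hT1]
      exact (dZI _ _).symm
    · have hpr : p ≠ r := by rintro rfl; exact hij rfl
      rw [hT1, hT1]
      exact dII _ _ hpr
  have hST : ∀ n, mu1 (S n) = mu1 (T n) := by
    intro n
    rcases Nat.even_or_odd' n with ⟨p, rfl | rfl⟩
    · rw [hS0, hT0, hmAD, mu1_Ico (hab p).1.le (hab p).2.2.le, hba]
    · rw [hS1, hT1, mu1_Ico (by linarith [(hI p).1]) (by linarith [(hI p).2.2]), hXs,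
        add_sub_cancel_left]
      simp only [hη]
      rw [ENNReal.ofReal_toReal (measure_ne_top _ _)]
  obtain ⟨u, hum, hu1, hu0⟩ := lab_exists S hSm hSd
  obtain ⟨v, hvm, hv1, hv0⟩ := lab_exists T hTm hTd
  have hlev : ∀ i, mu1 (u ⁻¹' {i}) = mu1 (v ⁻¹' {i}) := by
    intro i
    rcases i with _ | n
    · have h1 : u ⁻¹' {0} = (⋃ n, S n)ᶜ := by
        ext x
        simp only [mem_preimage, mem_singleton_iff, hu0, mem_compl_iff, mem_iUnion, not_exists]
      have h2 : v ⁻¹' {0} = (⋃ n, T n)ᶜ := by
        ext x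
        simp only [mem_preimage, mem_singleton_iff, hv0, mem_compl_iff, mem_iUnion, not_exists]
      rw [h1, h2, measure_compl (MeasurableSet.iUnion hSm) (measure_ne_top _ _),
        measure_compl (MeasurableSet.iUnion hTm) (measure_ne_top _ _),
        measure_iUnion (fun i j hij => hSd i j hij) hSm,
        measure_iUnion (fun i j hij => hTd i j hij) hTm]
      congr 1
      exact tsum_congr hST
    · have h1 : u ⁻¹' {n + 1} = S n := by
        ext x
        simp only [mem_preimage, mem_singleton_iff, hu1]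
      have h2 : v ⁻¹' {n + 1} = T n := by
        ext x
        simp only [mem_preimage, mem_singleton_iff, hv1]
      rw [h1, h2, hST]
  obtain ⟨τ, hτ1, hτ2⟩ := match_levels u v hum hvm hlev
  -- a.e. facts
  have hTS : ∀ n, ∀ᵐ x ∂mu1, x ∈ T n ↔ τ.f x ∈ S n := by
    intro n
    filter_upwards [hτ1] with x hx
    rw [← hv1, ← hu1, hx]
  have hTn : ∀ᵐ x ∂mu1, (∀ n, x ∉ T n) → ∀ n, τ.f x ∉ S n := by
    filter_upwards [hτ1] with x hx h
    rw [← hu0, hx, hv0]
    exact h
  have hint : ∀ n, ∫ x in T n, f (τ.f x) ∂mu1 = ∫ x in S n, f x ∂mu1 := by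
    intro n
    have h1 : (T n : Set ℝ) =ᵐ[mu1] τ.f ⁻¹' (S n) := by
      filter_upwards [hTS n] with x hx
      exact propext hx
    rw [setIntegral_congr_set h1]
    have h2 := setIntegral_map (μ := mu1) (g := τ.f) (f := f) (hSm n)
      (by rw [τ.f_mp.map_eq]; exact hfi.aestronglyMeasurable) τ.f_mp.measurable.aemeasurable
    rw [τ.f_mp.map_eq] at h2
    exact h2.symm
  refine ⟨τ, ?_, ?_⟩
  · -- size of the support
    have h1 : mu1 {x | τ.f x ≠ x} ≤ mu1 ((⋃ n, S n) ∪ ⋃ n, T n) := by
      apply measure_mono_ae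
      filter_upwards [hτ2] with x hx hne
      by_contra hc
      have hc' : x ∉ (⋃ n, S n) ∪ ⋃ n, T n := hc
      simp only [mem_union, mem_iUnion, not_or, not_exists] at hc'
      apply hne
      apply hx
      rw [(hu0 x).2 hc'.1, (hv0 x).2 hc'.2]
    have hsumS : ∑' n, mu1 (S n) ≤ ENNReal.ofReal (2 * ε) := by
      rw [ENNReal.tsum_eq_iSup_nat]
      apply iSup_le
      intro n
      have h3 : ∑ k ∈ Finset.range n, mu1 (S k) ≤ ∑ k ∈ Finset.range (2 * n), mu1 (S k) :=
        Finset.sum_le_sum_of_subset (by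
          intro k hk
          rw [Finset.mem_range] at hk ⊢
          omega)
      refine h3.trans ?_
      have h4 : ∑ k ∈ Finset.range (2 * n), mu1 (S k) =
          ENNReal.ofReal (∑ k ∈ Finset.range n, ζ k + X n) := by
        induction n with
        | zero => simp [hX0]
        | succ n ih =>
          rw [show 2 * (n + 1) = 2 * n + 1 + 1 by ring, Finset.sum_range_succ,
            Finset.sum_range_succ, ih ?_, hS0, hS1, hmAD, Finset.sum_range_succ, hXs]
          · have e1 : mu1 (E n) = ENNReal.ofReal (η n) := by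
              simp only [hη]
              rw [ENNReal.ofReal_toReal (measure_ne_top _ _)]
            rw [e1, ← ENNReal.ofReal_add, ← ENNReal.ofReal_add]
            · congr 1; ring
            · have := Finset.sum_nonneg (s := Finset.range n) (fun i _ => (hζpos i).le)
              have := (hI n).1
              have := hζpos n
              linarith
            · exact hηnn n
            · have := Finset.sum_nonneg (s := Finset.range n) (fun i _ => (hζpos i).le)
              have := (hI n).1
              linarith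
            · exact (hζpos n).le
          · exact Finset.sum_le_sum_of_subset (by
              intro k hk
              rw [Finset.mem_range] at hk ⊢
              omega)
      rw [h4]
      apply ENNReal.ofReal_le_ofReal
      linarith [hζs n, hXle n]
    calc mu1 {x | τ.f x ≠ x} ≤ mu1 ((⋃ n, S n) ∪ ⋃ n, T n) := h1
      _ ≤ mu1 (⋃ n, S n) + mu1 (⋃ n, T n) := measure_union_le _ _
      _ ≤ ∑' n, mu1 (S n) + ∑' n, mu1 (T n) :=
          add_le_add (measure_iUnion_le _) (measure_iUnion_le _)
      _ = ∑' n, mu1 (S n) + ∑' n, mu1 (S n) := by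
          congr 1
          exact (tsum_congr hST).symm
      _ ≤ ENNReal.ofReal (2 * ε) + ENNReal.ofReal (2 * ε) := add_le_add hsumS hsumS
      _ = ENNReal.ofReal (4 * ε) := by
          rw [← ENNReal.ofReal_add (by positivity) (by positivity)]
          congr 1
          ring
  · refine ⟨⟨κ, B, Ico (-1 + Y 0) 0 ∪ Ico xi (1 - W 0), a, b, X, fun k => X (k + 1),
      hκ, hκB, hB, ?_, hab, ?_, ?_, ?_, dZZ, dII, dZI, ?_, ?_, ?_, ?_, ?_, ?_, ?_,
      ?_, ?_⟩⟩
    · -- StepOn
      refine ⟨Bool, inferInstance, fun i => if i then -1 + Y 0 else xi,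
        fun i => if i then 0 else 1 - W 0, fun _ => 0, ?_, ?_, ?_, ?_, fun _ _ _ => rfl,
        fun _ _ => rfl⟩
      · intro i
        cases i
        · simp only [Bool.false_eq_true, if_false]
          linarith [hWle 0]
        · simp only [if_true]
          linarith [hYle 0]
      · intro i
        cases i
        · simp only [Bool.false_eq_true, if_false]
          exact ⟨by linarith, by linarith [hWpos 0]⟩
        · simp only [if_true]
          exact ⟨by linarith [hYpos 0], by norm_num⟩
      · intro i j hij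
        apply Idisj
        cases i <;> cases j <;> simp at hij ⊢
        · right; exact hxi0
        · left; exact hxi0
      · ext x
        simp only [mem_union, mem_iUnion, Bool.exists_bool, Bool.false_eq_true, if_false, if_true]
        exact or_comm
    · intro k
      exact ⟨(hI k).1, (hI k).2.1, by linarith [(hI k).2.2]⟩
    · intro j
      apply Disjoint.union_left
      · apply Idisj
        rcases Nat.even_or_odd' j with ⟨p, rfl | rfl⟩
        · right; rw [hb0]; linarith [hYanti (Nat.zero_le p)]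
        · left; rw [ha1]; linarith [hWle p]
      · apply Idisj
        rcases Nat.even_or_odd' j with ⟨p, rfl | rfl⟩
        · right; rw [hb0]; linarith [hYle p]
        · left; rw [ha1]; linarith [hWanti (Nat.zero_le p)]
    · intro j
      apply Disjoint.union_left
      · apply Idisj
        left; exact (hI j).1
      · apply Idisj
        right; exact hXxi _
    · -- cover
      intro x hx
      by_cases c1 : x < -1 + Y 0
      · right
        have : ∃ n, -1 + Y n ≤ x := by
          have h1 : ∀ᶠ n in atTop, Y n < x + 1 := hYt.eventually (gt_mem_nhds (by linarith [hx.1]))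
          obtain ⟨n, hn⟩ := h1.exists
          exact ⟨n, by linarith⟩
        obtain ⟨n, hn⟩ := this
        obtain ⟨k, hk1, hk2⟩ := find_step (fun n => -1 + Y n ≤ x) (by simpa using c1) hn
        refine mem_iUnion.2 ⟨2 * k, Or.inl ?_⟩
        rw [ha0, hb0]
        exact ⟨hk2, not_le.1 hk1⟩
      by_cases c2 : x < 0
      · left; left; exact ⟨not_lt.1 c1, c2⟩
      by_cases c3 : x < xi
      · right
        obtain ⟨n, hn⟩ := exists_lt_of_lt_ciSup c3
        obtain ⟨k, hk1, hk2⟩ := find_step (fun n => x < X n) (by rw [hX0]; exact c2) hn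
        refine mem_iUnion.2 ⟨k, Or.inr ?_⟩
        exact ⟨not_lt.1 hk1, hk2⟩
      by_cases c4 : x < 1 - W 0
      · left; right; exact ⟨not_lt.1 c3, c4⟩
      right
      have : ∃ n, x < 1 - W n := by
        have h1 : ∀ᶠ n in atTop, W n < 1 - x := hWt.eventually (gt_mem_nhds (by linarith [hx.2]))
        obtain ⟨n, hn⟩ := h1.exists
        exact ⟨n, by linarith⟩
      obtain ⟨n, hn⟩ := this
      obtain ⟨k, hk1, hk2⟩ := find_step (fun n => x < 1 - W n) c4 hn
      refine mem_iUnion.2 ⟨2 * k + 1, Or.inl ?_⟩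
      rw [ha1, hb1]
      exact ⟨not_lt.1 hk1, hk2⟩
    · -- bR
      filter_upwards [hTn] with x hx hxR
      apply hoff
      intro k hk
      have hnT : ∀ n, x ∉ T n := by
        intro n
        rcases Nat.even_or_odd' n with ⟨p, rfl | rfl⟩
        · rw [hT0]
          intro hxz
          rcases hxR with h | h
          · rcases Nat.even_or_odd' p with ⟨r, rfl | rfl⟩
            · rw [ha0, hb0] at hxz; linarith [hYanti (Nat.zero_le r), hxz.2, h.1]
            · rw [ha1, hb1] at hxz; linarith [hWle r, hxz.1, h.2]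
          · rcases Nat.even_or_odd' p with ⟨r, rfl | rfl⟩
            · rw [ha0, hb0] at hxz; linarith [hYle r, hxz.2, h.1]
            · rw [ha1, hb1] at hxz; linarith [hWanti (Nat.zero_le r), hxz.1, h.2]
        · rw [hT1]
          intro hxz
          rcases hxR with h | h
          · linarith [(hI p).1, hxz.1, h.2]
          · linarith [hXxi (p + 1), hxz.2, h.1]
      have := hx hnT (2 * k + 1)
      rw [hS1] at this
      exact this hk
    · intro j
      filter_upwards [hTS (2 * j)] with x hx hxz
      rw [hT0, hS0] at hx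
      rcases hx.1 hxz with h | h
      · have h1 := hAP j h
        simp only [Function.comp_apply]
        rw [abs_of_pos (hκ.trans_le h1.1)]
        exact ⟨h1.1, h1.2.trans hMB⟩
      · have h1 := hDP j h
        have h3 : f (τ.f x) < 0 := by linarith [h1.1]
        simp only [Function.comp_apply]
        rw [abs_of_neg h3]
        exact ⟨h1.1, h1.2.trans hMB⟩
    · intro j
      rw [ii_eq _ (hab j).2.1.le (hab j).1.le (hab j).2.2.le]
      have h1 := hint (2 * j)
      rw [hT0, hS0, setIntegral_union (hAD j j) (hDm j) hfi.integrableOn hfi.integrableOn,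
        hAi] at h1
      have h2 := hDi j
      rw [integral_neg] at h2
      simp only [Function.comp_apply]
      rw [h1]
      linarith
    · intro j
      filter_upwards [hTS (2 * j + 1)] with x hx hxz
      rw [hT1, hS1] at hx
      exact hEb j _ (hx.1 hxz)
    · -- sumZ
      have hB0 : 0 < B 0 := hκ.trans_le hκB
      have hBn : ∀ j, 0 ≤ B j := fun j => hB0.le.trans (hB (Nat.zero_le j))
      have hg : Summable fun j : ℕ => (B 0 * 2 * c / κ) * (1 / 2 : ℝ) ^ j :=
        (summable_geometric_of_lt_one (by norm_num) (by norm_num)).mul_left _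
      refine Summable.of_nonneg_of_le (fun j => ?_) (fun j => ?_) hg
      · rw [hba]; exact mul_nonneg (hBn j) (hζpos j).le
      · rw [hba]
        have h1 : ζ j ≤ 2 * q j / κ := by
          rw [le_div_iff₀ hκ, mul_comm]
          exact hζq j
        calc B j * ζ j ≤ (B 0 * 2 ^ j) * (2 * q j / κ) :=
              mul_le_mul (hB2 j) h1 (hζpos j).le (by positivity)
          _ = (B 0 * 2 * c / κ) * (1 / 2 : ℝ) ^ j := by
              simp only [hq]
              have : (1 / 2 : ℝ) ^ j = 2 ^ j * (1 / 4) ^ j := by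
                rw [← mul_pow]
                norm_num
              rw [this]
              ring
    · refine hsumE.congr (fun k => ?_)
      rw [hXs, add_sub_cancel_left]
    · refine hsumM.congr (fun k => ?_)
      rw [hXs, add_sub_cancel_left, ← hXs, ii_eq _ (hI k).2.1 (by linarith [(hI k).1])
        (by linarith [(hI k).2.2])]
      have h1 := hint (2 * k + 1)
      rw [hT1, hS1] at h1
      simp only [Function.comp_apply]
      rw [h1]
    · intro n
      have h1 : ∑ j ∈ Finset.range n, (b j - a j + (X (j + 1) - X j)) =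
          ∑ j ∈ Finset.range n, ζ j + X n := by
        rw [hX]
        simp only
        rw [← Finset.sum_add_distrib]
        apply Finset.sum_congr rfl
        intro j _
        rw [hba]
        congr 1
        have := hXs j
        simp only [hX] at this
        linarith
      rw [h1]
      linarith [hζs n, hXle n]


end Pool.Agent.Y249.Leg
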