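import Pool.Agent.Helper187.Leg.Main1

open MeasureTheory Set Real Filter Topology
open scoped ENNReal

namespace Pool.Agent.Y249.Leg

open Pool.Agent.Helper187.Leg

/-- the logarithmic weight -/
noncomputable def Lg (h : ℝ) : ℝ := 2 - log h

theorem Lg_ge {h : ℝ} (h0 : 0 ≤ h) (h2 : h ≤ 2) : 1 ≤ Lg h := by
  unfold Lg
  rcases h0.eq_or_lt with h1 | h1
  · rw [← h1]; simp
  · have h3 : log h ≤ log 2 := log_le_log h1 h2
    have h4 : log 2 < 1 := by
      have := Real.log_two_lt_d9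
      linarith
    linarith

theorem Lg_pos {h : ℝ} (h0 : 0 ≤ h) (h2 : h ≤ 2) : 0 < Lg h := by linarith [Lg_ge h0 h2]

theorem mul_Lg_le {h : ℝ} (h0 : 0 < h) (h1 : h ≤ 1) : h * Lg h ≤ 2 := by
  unfold Lg
  have h2 : -log h ≤ 1 / h - 1 := by
    have := Real.log_le_sub_one_of_pos (show 0 < 1 / h by positivity)
    rw [one_div, Real.log_inv] at this
    rw [one_div]
    exact this
  have h3 : h * (-log h) ≤ h * (1 / h - 1) := mul_le_mul_of_nonneg_left h2 h0.le
  have h4 : h * (1 / h - 1) = 1 - h := by field_simp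
  nlinarith

theorem int_pow_explicit {e : ℝ} (he : 0 < e) (he1 : e < 1) (p : ℝ) (hp1 : -1 ≤ p) (hp2 : p ≤ 1) :
    ∫⁻ x in Ioo (-1 : ℝ) 1, ENNReal.ofReal (|x - p| ^ (-e)) ≤ ENNReal.ofReal (4 / (1 - e)) := by
  have hE : 0 < 1 - e := by linarith
  have hone : ∫⁻ y in Ioc (0 : ℝ) 2, ENNReal.ofReal (|y| ^ (-e)) = ENNReal.ofReal (2 ^ (1 - e) / (1 - e)) := by
    have h1 : ∫⁻ y in Ioc (0 : ℝ) 2, ENNReal.ofReal (|y| ^ (-e)) =
        ∫⁻ y in Ioc (0 : ℝ) 2, ENNReal.ofReal (y ^ (-e)) := by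
      refine setLIntegral_congr_fun measurableSet_Ioc (fun y hy => ?_)
      show ENNReal.ofReal (|y| ^ (-e)) = ENNReal.ofReal (y ^ (-e))
      rw [abs_of_pos hy.1]
    rw [h1, ← ofReal_integral_eq_lintegral_ofReal]
    · rw [← intervalIntegral.integral_of_le (by norm_num), integral_rpow (Or.inl (by linarith))]
      congr 1
      rw [zero_rpow (by linarith)]
      rw [show -e + 1 = 1 - e by ring]
      ring
    · have := intervalIntegral.intervalIntegrable_rpow' (a := 0) (b := 2) (r := -e) (by linarith)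
      rwa [intervalIntegrable_iff_integrableOn_Ioc_of_le (by norm_num)] at this
    · filter_upwards [ae_restrict_mem measurableSet_Ioc] with y hy
      exact rpow_nonneg hy.1.le _
  have hneg : ∫⁻ y in Ico (-2 : ℝ) 0, ENNReal.ofReal (|y| ^ (-e)) =
      ∫⁻ y in Ioc (0 : ℝ) 2, ENNReal.ofReal (|y| ^ (-e)) := by
    have h4 := (Measure.measurePreserving_neg (volume : Measure ℝ)).setLIntegral_comp_preimage_emb
      (MeasurableEquiv.neg ℝ).measurableEmbedding (fun y : ℝ => ENNReal.ofReal (|y| ^ (-e))) (Ioc (0 : ℝ) 2)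
    have h5 : (Neg.neg ⁻¹' Ioc (0 : ℝ) 2 : Set ℝ) = Ico (-2) 0 := by
      ext y
      simp only [mem_preimage, mem_Ioc, mem_Ico]
      constructor <;> rintro ⟨a, b⟩ <;> constructor <;> linarith
    rw [h5] at h4
    rw [← h4]
    refine setLIntegral_congr_fun measurableSet_Ico (fun y _ => ?_)
    show ENNReal.ofReal (|y| ^ (-e)) = ENNReal.ofReal (|-y| ^ (-e))
    rw [abs_neg]
  have h2 : ∫⁻ x in Ioo (-1 : ℝ) 1, ENNReal.ofReal (|x - p| ^ (-e)) ≤
      ∫⁻ y in Ioo (-2 : ℝ) 2, ENNReal.ofReal (|y| ^ (-e)) := by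
    calc ∫⁻ x in Ioo (-1 : ℝ) 1, ENNReal.ofReal (|x - p| ^ (-e))
        = ∫⁻ x, (Ioo (-1 : ℝ) 1).indicator (fun x => ENNReal.ofReal (|x - p| ^ (-e))) x := by
          rw [lintegral_indicator measurableSet_Ioo]
      _ ≤ ∫⁻ x, (fun y => (Ioo (-2 : ℝ) 2).indicator (fun y => ENNReal.ofReal (|y| ^ (-e))) y) (x - p) := by
          refine lintegral_mono fun x => ?_
          by_cases hx : x ∈ Ioo (-1 : ℝ) 1
          · rw [indicator_of_mem hx]
            have : x - p ∈ Ioo (-2 : ℝ) 2 := ⟨by linarith [hx.1], by linarith [hx.2]⟩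
            simp only
            rw [indicator_of_mem this]
          · rw [indicator_of_notMem hx]
            exact zero_le
      _ = ∫⁻ x, (Ioo (-2 : ℝ) 2).indicator (fun y => ENNReal.ofReal (|y| ^ (-e))) x :=
          lintegral_sub_right_eq_self _ p
      _ = ∫⁻ y in Ioo (-2 : ℝ) 2, ENNReal.ofReal (|y| ^ (-e)) := by
          rw [lintegral_indicator measurableSet_Ioo]
  refine h2.trans ?_
  have h3 : ∫⁻ y in Ioo (-2 : ℝ) 2, ENNReal.ofReal (|y| ^ (-e)) ≤
      ∫⁻ y in Ico (-2 : ℝ) 0 ∪ ({0} ∪ Ioc 0 2), ENNReal.ofReal (|y| ^ (-e)) := by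
    apply lintegral_mono_set
    intro y hy
    rcases lt_trichotomy y 0 with h | h | h
    · exact Or.inl ⟨hy.1.le, h⟩
    · exact Or.inr (Or.inl h)
    · exact Or.inr (Or.inr ⟨h, hy.2.le⟩)
  refine h3.trans ((lintegral_union_le _ _ _).trans ?_)
  have h4 : ∫⁻ y in {0} ∪ Ioc (0 : ℝ) 2, ENNReal.ofReal (|y| ^ (-e)) ≤
      ∫⁻ y in Ioc (0 : ℝ) 2, ENNReal.ofReal (|y| ^ (-e)) := by
    refine (lintegral_union_le _ _ _).trans ?_
    simp
  rw [hneg]
  refine (add_le_add le_rfl h4).trans ?_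
  rw [hone, ← ENNReal.ofReal_add (by positivity) (by positivity)]
  apply ENNReal.ofReal_le_ofReal
  have h5 : (2 : ℝ) ^ (1 - e) ≤ 2 := by
    calc (2 : ℝ) ^ (1 - e) ≤ 2 ^ (1 : ℝ) := Real.rpow_le_rpow_of_exponent_le (by norm_num) (by linarith)
      _ = 2 := Real.rpow_one 2
  rw [← add_div]
  exact div_le_div_of_nonneg_right (by linarith) hE.le

/-- the bound for intervals with the constant `C / (1 - e)`. -/
theorem NN_interval_e (r : ℝ) (hr : 0 < r) :
    ∃ C : ℝ, 0 < C ∧ ∀ e : ℝ, 0 < e → e < 1 → ∀ A B : ℝ, -1 + r ≤ A → A < B → B ≤ 1 - r →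
      NN ((Ico A B).indicator 1) ≤ ENNReal.ofReal (C / (1 - e) * (B - A) ^ e) := by
  obtain ⟨C', hC', sb⟩ := T1.sinc_int_bound
  obtain ⟨C1, c, hC1, hc, R1⟩ := R1 KA.LK_main
  rcases le_or_gt 1 r with hr1 | hr1
  · exact ⟨1, one_pos, fun e _ _ A B h1 h2 h3 => by linarith⟩
  have hpi := Real.pi_pos
  set γ := arcsin (1 - r) with hγ
  have hγ0 : 0 < γ := arcsin_pos.2 (by linarith)
  have hγ1 : γ < π / 2 := arcsin_lt_pi_div_two.2 (by linarith)
  set ρ := π / 2 - γ with hρdef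
  have hρ : 0 < ρ := by linarith
  have hcos : 0 < cos γ := cos_pos_of_mem_Ioo ⟨by linarith, hγ1⟩
  obtain ⟨K2, hK2, R1'⟩ := R1 (ρ / 2) (by linarith)
  obtain ⟨K3, hK3, R2'⟩ := R2 KA.LK_far ρ hρ
  obtain ⟨Cq, hCq, ibq⟩ := N3.int_pow_bound (e := 1 / 4) (by norm_num)
  set K1 := C1 * (2 * C' + 2) with hK1def
  have hK1 : 0 < K1 := by positivity
  refine ⟨(K1 * 4 + (2 * K2 + K3 * (2 * Cq)) * π) * (1 / cos γ), by positivity, ?_⟩
  intro e he he1 A B hA hAB hB
  have hE : 0 < 1 - e := by linarith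
  set α := arcsin A with hα
  set β := arcsin B with hβ
  have hsα : sin α = A := sin_arcsin (by linarith) (by linarith)
  have hsβ : sin β = B := sin_arcsin (by linarith) (by linarith)
  have hαβ : α < β := arcsin_lt_arcsin (by linarith) hAB (by linarith)
  have hβγ : β ≤ γ := monotone_arcsin hB
  have hγα : -γ ≤ α := by
    rw [hγ, ← arcsin_neg]
    exact monotone_arcsin (by linarith)
  set l := β - α with hl
  have hl0 : 0 < l := by linarith
  have hlpi : l ≤ π := by linarith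
  have hlip : l ≤ (1 / cos γ) * (B - A) := by
    have h1 : cos γ * l ≤ B - A := by
      have h2 : ∫ x in α..β, cos γ ≤ ∫ x in α..β, cos x := by
        refine intervalIntegral.integral_mono_on hαβ.le (by simp) (continuous_cos.intervalIntegrable _ _) ?_
        intro x hx
        rw [← cos_abs x]
        refine cos_le_cos_of_nonneg_of_le_pi (abs_nonneg _) (by linarith) ?_
        rw [abs_le]
        exact ⟨by linarith [hx.1], by linarith [hx.2]⟩
      rw [integral_cos, hsα, hsβ, intervalIntegral.integral_const, smul_eq_mul] at h2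
      linarith
    rw [one_div, inv_mul_eq_div, le_div_iff₀ hcos]
    linarith
  -- the pointwise bound
  have hpt : ∀ x ∈ Ioo (-1 : ℝ) 1, x ≠ A → ∀ n, |Sn n ((Ico A B).indicator 1) x| ≤
      K1 * l ^ e * |x - A| ^ (-e) + (K2 * l + K3 * l * (|x - 1| ^ (-(1 / 4) : ℝ) +
        |x - (-1)| ^ (-(1 / 4) : ℝ))) := by
    intro x hx hxA n
    have hx1 : sin (arcsin x) = x := sin_arcsin hx.1.le hx.2.le
    have hψ : |arcsin x| < π / 2 := by
      rw [abs_lt]
      exact ⟨neg_pi_div_two_lt_arcsin.2 hx.1, arcsin_lt_pi_div_two.2 hx.2⟩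
    have p1 : 0 ≤ |x - 1| ^ (-(1 / 4) : ℝ) := by positivity
    have p2 : 0 ≤ |x - (-1)| ^ (-(1 / 4) : ℝ) := by positivity
    have p3 : 0 ≤ |x - A| ^ (-e) := by positivity
    have p4 : 0 ≤ l ^ e := by positivity
    rw [N3.Sn_ind n x (by linarith) hAB.le (by linarith)]
    rcases le_or_gt |arcsin x| (π / 2 - ρ / 2) with h | h
    · have h1 := R1' n (arcsin x) α β h (by linarith) hαβ.le (by linarith)
      rw [hsα, hsβ, hx1] at h1
      have hne : arcsin x ≠ α := by
        intro h2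
        apply hxA
        rw [← hx1, h2, hsα]
      have h2 := N3.kernel_bd hC' sb he he1 ((n : ℝ) + 1) (arcsin x) α β hαβ hne
      have h3 : |x - A| ≤ |arcsin x - α| := by
        have := abs_sin_sub_sin_le (arcsin x) α
        rwa [hx1, hsα] at this
      have h4 : 0 < |x - A| := abs_pos.2 (sub_ne_zero.2 hxA)
      have h5 : (l / |arcsin x - α|) ^ e ≤ l ^ e * |x - A| ^ (-e) := by
        calc (l / |arcsin x - α|) ^ e ≤ (l / |x - A|) ^ e :=
              Real.rpow_le_rpow (by positivity) (div_le_div_of_nonneg_left hl0.le h4 h3) he.le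
          _ = l ^ e * |x - A| ^ (-e) := by
              rw [Real.div_rpow hl0.le h4.le, Real.rpow_neg h4.le, div_eq_mul_inv]
      have h6 : |c n * ∫ φ in α..β, sin (((n : ℝ) + 1) * (arcsin x - φ)) / (arcsin x - φ)| ≤
          K1 * (l ^ e * |x - A| ^ (-e)) := by
        rw [abs_mul, hK1def, mul_assoc]
        refine mul_le_mul (hc n) (h2.trans ?_) (abs_nonneg _) hC1.le
        exact mul_le_mul_of_nonneg_left h5 (by linarith)
      have h7 := abs_sub_abs_le_abs_sub (∫ t in A..B, LK n x t)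
        (c n * ∫ φ in α..β, sin (((n : ℝ) + 1) * (arcsin x - φ)) / (arcsin x - φ))
      have h8 : 0 ≤ K3 * l * (|x - 1| ^ (-(1 / 4) : ℝ) + |x - (-1)| ^ (-(1 / 4) : ℝ)) := by positivity
      linarith
    · have h1 := R2' n (arcsin x) α β hψ h.le (by linarith) hαβ.le (by linarith)
      rw [hsα, hsβ, hx1] at h1
      have h2 := N3.cos_bd hx.1 hx.2
      have h3 : K3 * (β - α) / √(cos (arcsin x)) ≤
          K3 * l * (|x - 1| ^ (-(1 / 4) : ℝ) + |x - (-1)| ^ (-(1 / 4) : ℝ)) := by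
        rw [div_eq_mul_one_div]
        exact mul_le_mul_of_nonneg_left h2 (by positivity)
      have h4 : 0 ≤ K1 * l ^ e * |x - A| ^ (-e) := by positivity
      have h5 : 0 ≤ K2 * l := by positivity
      linarith
  have hle : NN ((Ico A B).indicator 1) ≤ ∫⁻ x in Ioo (-1 : ℝ) 1,
      (ENNReal.ofReal (K1 * l ^ e) * ENNReal.ofReal (|x - A| ^ (-e)) +
        (ENNReal.ofReal (K2 * l) + ENNReal.ofReal (K3 * l) * (ENNReal.ofReal (|x - 1| ^ (-(1 / 4) : ℝ)) +
        ENNReal.ofReal (|x - (-1)| ^ (-(1 / 4) : ℝ))))) := by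
    unfold NN
    refine lintegral_mono_ae ?_
    have hne : ∀ᵐ x ∂(volume.restrict (Ioo (-1 : ℝ) 1)), x ≠ A :=
      ae_restrict_of_ae (by
        have h : ({A} : Set ℝ)ᶜ ∈ ae (volume : Measure ℝ) := compl_mem_ae_iff.2 (measure_singleton A)
        filter_upwards [h] with x hx
        exact hx)
    filter_upwards [hne, ae_restrict_mem measurableSet_Ioo] with x hxA hx
    refine iSup_le fun n => ?_
    rw [← ENNReal.ofReal_add (by positivity) (by positivity), ← ENNReal.ofReal_mul (by positivity),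
      ← ENNReal.ofReal_mul (by positivity), ← ENNReal.ofReal_add (by positivity) (by positivity),
      ← ENNReal.ofReal_add (by positivity) (by positivity), ← ofReal_norm, Real.norm_eq_abs]
    exact ENNReal.ofReal_le_ofReal (hpt x hx hxA n)
  have mA : ∀ p s : ℝ, Measurable (fun x : ℝ => ENNReal.ofReal (|x - p| ^ s)) := by
    intro p s
    exact (((measurable_id.sub_const p).abs).pow_const s).ennreal_ofReal
  have hval : ∫⁻ x in Ioo (-1 : ℝ) 1,
      (ENNReal.ofReal (K1 * l ^ e) * ENNReal.ofReal (|x - A| ^ (-e)) +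
        (ENNReal.ofReal (K2 * l) + ENNReal.ofReal (K3 * l) * (ENNReal.ofReal (|x - 1| ^ (-(1 / 4) : ℝ)) +
        ENNReal.ofReal (|x - (-1)| ^ (-(1 / 4) : ℝ))))) ≤
      ENNReal.ofReal (K1 * l ^ e * (4 / (1 - e)) + (K2 * l * 2 + K3 * l * (Cq + Cq))) := by
    rw [lintegral_add_left ((mA _ _).const_mul _), lintegral_const_mul _ (mA _ _),
      lintegral_add_left measurable_const, lintegral_const_mul (f := fun a : ℝ =>
        ENNReal.ofReal (|a - 1| ^ (-(1 / 4) : ℝ)) + ENNReal.ofReal (|a - (-1)| ^ (-(1 / 4) : ℝ))) _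
        ((mA 1 _).add (mA (-1) _)),
      lintegral_add_left (mA _ _), lintegral_const, Measure.restrict_apply_univ, Real.volume_Ioo]
    rw [ENNReal.ofReal_add (by positivity) (by positivity), ENNReal.ofReal_add (by positivity) (by positivity),
      ENNReal.ofReal_mul (q := 4 / (1 - e)) (by positivity), ENNReal.ofReal_mul (q := 2) (by positivity),
      ENNReal.ofReal_mul (q := Cq + Cq) (by positivity), ENNReal.ofReal_add hCq.le hCq.le]
    have h1 := int_pow_explicit he he1 A (by linarith) (by linarith)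
    have h2 := ibq 1 (by norm_num) le_rfl
    have h3 := ibq (-1) le_rfl (by norm_num)
    have h4 : (1 : ℝ) - -1 = 2 := by norm_num
    rw [h4]
    gcongr
  refine hle.trans (hval.trans (ENNReal.ofReal_le_ofReal ?_))
  have h1 : l ≤ π * l ^ e := by
    have h2 : l ^ (1 - e) ≤ π := by
      calc l ^ (1 - e) ≤ π ^ (1 - e) := Real.rpow_le_rpow hl0.le hlpi (by linarith)
        _ ≤ π ^ (1 : ℝ) := Real.rpow_le_rpow_of_exponent_le (by linarith [Real.pi_gt_three]) (by linarith)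
        _ = π := Real.rpow_one _
    calc l = l ^ (1 - e) * l ^ e := by rw [← Real.rpow_add hl0]; simp
      _ ≤ π * l ^ e := mul_le_mul_of_nonneg_right h2 (by positivity)
  have hcg : 1 ≤ 1 / cos γ := by
    rw [le_div_iff₀ hcos, one_mul]; exact cos_le_one γ
  have h2 : l ^ e ≤ (1 / cos γ) * (B - A) ^ e := by
    calc l ^ e ≤ ((1 / cos γ) * (B - A)) ^ e := Real.rpow_le_rpow hl0.le hlip he.le
      _ = (1 / cos γ) ^ e * (B - A) ^ e := Real.mul_rpow (by positivity) (by linarith)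
      _ ≤ (1 / cos γ) ^ (1 : ℝ) * (B - A) ^ e := by
          have : (0 : ℝ) ≤ (B - A) ^ e := Real.rpow_nonneg (by linarith) _
          exact mul_le_mul_of_nonneg_right (Real.rpow_le_rpow_of_exponent_le hcg he1.le) this
      _ = _ := by rw [Real.rpow_one]
  have hie : 1 ≤ 1 / (1 - e) := by
    rw [le_div_iff₀ hE]; linarith
  have hp0 : 0 ≤ l ^ e := by positivity
  calc K1 * l ^ e * (4 / (1 - e)) + (K2 * l * 2 + K3 * l * (Cq + Cq))
      = K1 * 4 * (1 / (1 - e)) * l ^ e + (2 * K2 + K3 * (2 * Cq)) * l := by ring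
    _ ≤ K1 * 4 * (1 / (1 - e)) * l ^ e + (2 * K2 + K3 * (2 * Cq)) * (π * l ^ e) := by
        gcongr
    _ ≤ K1 * 4 * (1 / (1 - e)) * l ^ e + (2 * K2 + K3 * (2 * Cq)) * (π * l ^ e) * (1 / (1 - e)) := by
        have : 0 ≤ (2 * K2 + K3 * (2 * Cq)) * (π * l ^ e) := by positivity
        nlinarith
    _ = (K1 * 4 + (2 * K2 + K3 * (2 * Cq)) * π) * (1 / (1 - e)) * l ^ e := by ring
    _ ≤ (K1 * 4 + (2 * K2 + K3 * (2 * Cq)) * π) * (1 / (1 - e)) * ((1 / cos γ) * (B - A) ^ e) := by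
        gcongr
    _ = _ := by ring

/-- the logarithmic bound for intervals. -/
theorem NN_interval_log (r : ℝ) (hr : 0 < r) :
    ∃ C : ℝ, 0 < C ∧ ∀ A B : ℝ, -1 + r ≤ A → A < B → B ≤ 1 - r →
      NN ((Ico A B).indicator 1) ≤ ENNReal.ofReal (C * ((B - A) * Lg (B - A))) := by
  obtain ⟨C, hC, H⟩ := NN_interval_e r hr
  refine ⟨C * (2 * exp 1), by positivity, fun A B hA hAB hB => ?_⟩
  have hd : 0 < B - A := by linarith
  have hd2 : B - A ≤ 2 := by linarith
  have hL1 : 1 ≤ Lg (B - A) := Lg_ge hd.le hd2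
  have hlog : log (B - A) = 2 - Lg (B - A) := by unfold Lg; ring
  set L := Lg (B - A) with hL
  have hL2 : 1 / (L + 1) < 1 := by
    rw [div_lt_one (by linarith)]; linarith
  have hL3 : 0 < 1 / (L + 1) := by positivity
  refine (H (1 - 1 / (L + 1)) (by linarith) (by linarith) A B hA hAB hB).trans (ENNReal.ofReal_le_ofReal ?_)
  have e1 : (1 : ℝ) - (1 - 1 / (L + 1)) = 1 / (L + 1) := by ring
  rw [e1]
  have e2 : C / (1 / (L + 1)) = C * (L + 1) := by field_simp
  rw [e2]
  have e3 : (B - A) ^ (1 - 1 / (L + 1)) = (B - A) * exp (-log (B - A) * (1 / (L + 1))) := by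
    rw [Real.rpow_sub hd, Real.rpow_one, Real.rpow_def_of_pos hd, div_eq_mul_inv, ← Real.exp_neg]
    congr 2
    ring
  rw [e3]
  have h4 : -log (B - A) * (1 / (L + 1)) ≤ 1 := by
    rw [mul_one_div, div_le_iff₀ (by linarith), hlog]
    linarith
  have h5 : exp (-log (B - A) * (1 / (L + 1))) ≤ exp 1 := Real.exp_le_exp.2 h4
  have h6 : (B - A) * exp (-log (B - A) * (1 / (L + 1))) ≤ (B - A) * exp 1 :=
    mul_le_mul_of_nonneg_left h5 hd.le
  calc C * (L + 1) * ((B - A) * exp (-log (B - A) * (1 / (L + 1))))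
      ≤ C * (2 * L) * ((B - A) * exp 1) := by
        apply mul_le_mul _ h6 (by positivity) (by positivity)
        apply mul_le_mul_of_nonneg_left _ hC.le
        linarith
    _ = C * (2 * exp 1) * ((B - A) * L) := by ring

end Pool.Agent.Y249.Leg
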