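import Pool.Agent.Y249.Leg.LogInt
import Pool.Agent.Helper187.Leg.M1

open MeasureTheory Set Real Filter Topology
open scoped ENNReal

namespace Pool.Agent.Y249.Leg

open Pool.Agent.Helper187.Leg Pool.Agent.Helper187.Leg.M1

theorem thr_tkL {G : ℝ → ℝ}
    (hM : ∫⁻ t in Ioi (1 : ℝ), ENNReal.ofReal (log t / t * |G t|) < ⊤) :
    ∃ t : ℕ → ℝ, (∀ k, (2 : ℝ) ^ k ≤ t k) ∧ (∀ k, t k ≤ 2 ^ (k + 1)) ∧
      Summable fun k : ℕ => (k : ℝ) * |G (t k)| := by
  set J : ℕ → ℝ≥0∞ := fun k => ∫⁻ t in Ioc ((2 : ℝ) ^ k) (2 ^ (k + 1)),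
    ENNReal.ofReal (log t / t * |G t|) with hJ
  have hsub : (⋃ k : ℕ, Ioc ((2 : ℝ) ^ k) (2 ^ (k + 1))) ⊆ Ioi (1 : ℝ) := by
    intro x hx
    obtain ⟨k, hk⟩ := mem_iUnion.1 hx
    exact lt_of_le_of_lt (one_le_pow₀ (by norm_num)) hk.1
  have hdisj : Pairwise (Function.onFun Disjoint fun k : ℕ => Ioc ((2 : ℝ) ^ k) (2 ^ (k + 1))) := by
    have key : ∀ i j : ℕ, i < j → Disjoint (Ioc ((2 : ℝ) ^ i) (2 ^ (i + 1))) (Ioc ((2 : ℝ) ^ j) (2 ^ (j + 1))) := by
      intro i j hij
      rw [Set.disjoint_left]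
      rintro x ⟨_, hx2⟩ ⟨hx3, _⟩
      have : (2 : ℝ) ^ (i + 1) ≤ 2 ^ j := pow_le_pow_right₀ (by norm_num) (by omega)
      linarith
    intro i j hij
    rcases lt_or_gt_of_ne hij with h | h
    · exact key i j h
    · exact (key j i h).symm
  have hJsum : ∑' k, J k ≠ ⊤ := by
    rw [hJ]
    rw [← lintegral_iUnion (fun k => measurableSet_Ioc) hdisj]
    exact ((lintegral_mono_set hsub).trans_lt hM).ne
  have hJfin : ∀ k, J k ≠ ⊤ := ENNReal.ne_top_of_tsum_ne_top hJsum
  have hJs : Summable fun k => (J k).toReal := ENNReal.summable_toReal hJsum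
  have hex : ∀ k : ℕ, ∃ t : ℝ, (2 : ℝ) ^ k ≤ t ∧ t ≤ 2 ^ (k + 1) ∧
      (k : ℝ) * |G t| ≤ 4 * ((J k).toReal + (1 / 2) ^ k) := by
    intro k
    rcases Nat.eq_zero_or_pos k with h0 | hkpos
    · subst h0
      refine ⟨1, by norm_num, by norm_num, ?_⟩
      have : 0 ≤ (J 0).toReal := ENNReal.toReal_nonneg
      simp only [Nat.cast_zero, zero_mul]
      positivity
    set K0 : ℝ := (J k).toReal + (1 / 2) ^ k with hK0
    have hJ0 : 0 ≤ (J k).toReal := ENNReal.toReal_nonneg
    have hK0pos : 0 < K0 := by positivity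
    have h2k : (0 : ℝ) < 2 ^ k := by positivity
    have hk1 : (1 : ℝ) ≤ k := by exact_mod_cast hkpos
    have hex : ∃ t ∈ Ioc ((2 : ℝ) ^ k) (2 ^ (k + 1)), log t / t * |G t| ≤ K0 / 2 ^ k := by
      by_contra hcon
      push Not at hcon
      have h1 : ENNReal.ofReal K0 ≤ J k := by
        calc ENNReal.ofReal K0 = ENNReal.ofReal (K0 / 2 ^ k) * volume (Ioc ((2 : ℝ) ^ k) (2 ^ (k + 1))) := by
              rw [Real.volume_Ioc, ← ENNReal.ofReal_mul (by positivity)]
              congr 1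
              rw [pow_succ]
              field_simp
              ring
          _ = ∫⁻ _ in Ioc ((2 : ℝ) ^ k) (2 ^ (k + 1)), ENNReal.ofReal (K0 / 2 ^ k) := by
              rw [setLIntegral_const]
          _ ≤ J k := by
              apply setLIntegral_mono' measurableSet_Ioc
              intro t ht
              exact ENNReal.ofReal_le_ofReal (hcon t ht).le
      have h2 : K0 ≤ (J k).toReal := by
        rw [← ENNReal.ofReal_le_ofReal_iff ENNReal.toReal_nonneg, ENNReal.ofReal_toReal (hJfin k)]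
        exact h1
      have : (0 : ℝ) < (1 / 2) ^ k := by positivity
      linarith
    obtain ⟨t, ht, hG⟩ := hex
    refine ⟨t, ht.1.le, ht.2, ?_⟩
    have htpos : 0 < t := lt_trans h2k ht.1
    have hlog2 : (1 : ℝ) / 2 ≤ log 2 := by have := Real.log_two_gt_d9; linarith
    have hlt : (k : ℝ) / 2 ≤ log t := by
      have h1 : log ((2 : ℝ) ^ k) ≤ log t := log_le_log h2k ht.1.le
      rw [Real.log_pow] at h1
      nlinarith
    have ht2 : t ≤ 2 * 2 ^ k := by
      have := ht.2
      rw [pow_succ] at this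
      linarith
    have hGn : 0 ≤ |G t| := abs_nonneg _
    have h3 : (k : ℝ) / 2 * |G t| ≤ log t * |G t| := mul_le_mul_of_nonneg_right hlt hGn
    have h4 : log t * |G t| = t * (log t / t * |G t|) := by
      field_simp
    have h5 : t * (log t / t * |G t|) ≤ t * (K0 / 2 ^ k) := mul_le_mul_of_nonneg_left hG htpos.le
    have h6 : t * (K0 / 2 ^ k) ≤ (2 * 2 ^ k) * (K0 / 2 ^ k) :=
      mul_le_mul_of_nonneg_right ht2 (by positivity)
    have h7 : (2 * 2 ^ k) * (K0 / 2 ^ k) = 2 * K0 := by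
      field_simp
    linarith
  choose t ht1 ht2 ht3 using hex
  refine ⟨t, ht1, ht2, ?_⟩
  refine Summable.of_nonneg_of_le (fun k => by positivity) ht3 ?_
  exact (hJs.add summable_geometric_two).mul_left 4

theorem thresholdsL (f : ℝ → ℝ) (hf : Measurable f) (hfi : Integrable f mu1)
    (t : ℕ → ℝ) (ht1 : ∀ k, (2 : ℝ) ^ k ≤ t k) (ht2 : ∀ k, t k ≤ 2 ^ (k + 1))
    (ht3 : Summable fun k : ℕ => (k : ℝ) * |∫ x in {x | t k < |f x| ∧ |f x| ≤ t (k + 1)}, f x ∂mu1|)
    (hne : ¬ ∃ c : ℝ, ∀ᵐ x ∂mu1, f x = c) {ε : ℝ} (hε : 0 < ε) :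
    ∃ (c κ M : ℝ) (B : ℕ → ℝ) (E : ℕ → Set ℝ), 0 < κ ∧ κ ≤ B 0 ∧ M ≤ B 0 ∧
      Monotone B ∧ (∀ j, B j ≤ B 0 * 2 ^ j) ∧ (∀ k, MeasurableSet (E k)) ∧
      (∀ i j, i ≠ j → Disjoint (E i) (E j)) ∧
      (∀ k, ∀ x ∈ E k, |f x - c| ≤ B k) ∧ (∀ k, ∀ x ∈ E k, M < |f x - c|) ∧
      (∀ x, (∀ k, x ∉ E k) → |f x - c| ≤ B 0) ∧
      0 < mu1 {x | κ ≤ f x - c ∧ f x - c ≤ M} ∧ 0 < mu1 {x | κ ≤ -(f x - c) ∧ -(f x - c) ≤ M} ∧
      (Summable fun k => B k * (mu1 (E k)).toReal) ∧
      (Summable fun k => |∫ x in E k, (f x - c) ∂mu1| * Lg (mu1 (E k)).toReal) ∧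
      (∀ n, ∑ k ∈ Finset.range n, (mu1 (E k)).toReal ≤ ε) := by
  haveI : IsFiniteMeasure mu1 := by unfold mu1; infer_instance
  have hU : mu1 univ ≠ 0 := by
    unfold mu1
    rw [Measure.restrict_apply_univ, Real.volume_Icc]
    simp
  obtain ⟨c, hc1, hc2⟩ := thr_mid hU hne
  have hc1' : 0 < mu1 {x | 0 < f x - c} := by
    simpa only [sub_pos] using hc1
  have hc2' : 0 < mu1 {x | 0 < -(f x - c)} := by
    have : {x | 0 < -(f x - c)} = {x | f x < c} := by
      ext x
      simp only [mem_ofPred_eq]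
      constructor <;> intro h <;> linarith
    rw [this]
    exact hc2
  obtain ⟨n1, hn1⟩ := thr_side (g := fun x => f x - c) hc1'
  obtain ⟨n2, hn2⟩ := thr_side (g := fun x => -(f x - c)) hc2'
  set N : ℕ := max n1 n2 with hN
  set κ : ℝ := 1 / ((N : ℝ) + 1) with hκ
  set M : ℝ := (N : ℝ) + 1 with hMd
  have hN1 : (n1 : ℝ) ≤ N := by exact_mod_cast le_max_left n1 n2
  have hN2 : (n2 : ℝ) ≤ N := by exact_mod_cast le_max_right n1 n2
  have hκpos : 0 < κ := by positivity
  have hκ1 : κ ≤ 1 := by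
    rw [hκ, div_le_one (by positivity)]
    have : (0 : ℝ) ≤ N := Nat.cast_nonneg N
    linarith
  have hm1 : 0 < mu1 {x | κ ≤ f x - c ∧ f x - c ≤ M} := by
    refine lt_of_lt_of_le hn1 (measure_mono ?_)
    rintro x ⟨hx1, hx2⟩
    refine ⟨le_trans ?_ hx1, le_trans hx2 ?_⟩
    · exact one_div_le_one_div_of_le (by positivity) (by linarith)
    · show (n1 : ℝ) + 1 ≤ M
      rw [hMd]; linarith
  have hm2 : 0 < mu1 {x | κ ≤ -(f x - c) ∧ -(f x - c) ≤ M} := by
    refine lt_of_lt_of_le hn2 (measure_mono ?_)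
    rintro x ⟨hx1, hx2⟩
    refine ⟨le_trans ?_ hx1, le_trans hx2 ?_⟩
    · exact one_div_le_one_div_of_le (by positivity) (by linarith)
    · show (n2 : ℝ) + 1 ≤ M
      rw [hMd]; linarith
  -- the good levels
  set I : ℝ := ∫ x, |f x| ∂mu1 with hI
  have hI0 : 0 ≤ I := integral_nonneg fun x => abs_nonneg _
  have hmark : ∀ a : ℝ, a * mu1.real {x | a ≤ |f x|} ≤ I := fun a =>
    mul_meas_ge_le_integral_of_nonneg (ae_of_all _ fun x => abs_nonneg _) hfi.abs a
  -- choice of k0
  obtain ⟨k0, hk0⟩ : ∃ k0 : ℕ, |c| + M + 1 + I / ε < 2 ^ k0 :=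
    pow_unbounded_of_one_lt _ (by norm_num)
  have hcabs := abs_nonneg c
  have hM1 : 1 ≤ M := by
    rw [hMd]
    have : (0 : ℝ) ≤ N := Nat.cast_nonneg N
    linarith
  have hIε : 0 ≤ I / ε := div_nonneg hI0 hε.le
  set B : ℕ → ℝ := fun k => 2 ^ (k0 + k + 3) with hB
  set E : ℕ → Set ℝ := fun k => {x | t (k0 + k) < |f x| ∧ |f x| ≤ t (k0 + k + 1)} with hE
  have hmt : ∀ k, t k ≤ t (k + 1) := fun k => (ht2 k).trans (ht1 (k + 1))
  have hmono : Monotone t := monotone_nat_of_le_succ hmt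
  have hEm : ∀ k, MeasurableSet (E k) := by
    intro k
    have habs : Measurable fun x => |f x| := hf.abs
    exact (measurableSet_lt measurable_const habs).inter (measurableSet_le habs measurable_const)
  have hEd : ∀ i j, i ≠ j → Disjoint (E i) (E j) := by
    have key : ∀ i j, i < j → Disjoint (E i) (E j) := by
      intro i j hij
      rw [Set.disjoint_left]
      rintro x ⟨_, hx2⟩ ⟨hx3, _⟩
      have : t (k0 + i + 1) ≤ t (k0 + j) := hmono (by omega)
      linarith
    intro i j hij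
    rcases lt_or_gt_of_ne hij with h | h
    · exact key i j h
    · exact (key j i h).symm
  have hp2 : ∀ k : ℕ, (2 : ℝ) ^ k0 ≤ 2 ^ (k0 + k) := fun k =>
    pow_le_pow_right₀ (by norm_num) (by omega)
  have hEB : ∀ k, ∀ x ∈ E k, |f x - c| ≤ B k := by
    rintro k x ⟨_, hx2⟩
    have h1 : |f x - c| ≤ |f x| + |c| := abs_sub _ _
    have h2 := ht2 (k0 + k + 1)
    have h3 : (2 : ℝ) ^ (k0 + k + 1 + 1) = 4 * 2 ^ (k0 + k) := by ring
    have h4 : B k = 8 * 2 ^ (k0 + k) := by rw [hB]; ring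
    have h5 := hp2 k
    rw [h3] at h2
    rw [h4]
    have h6 : (0 : ℝ) < 2 ^ (k0 + k) := by positivity
    linarith
  have hEM : ∀ k, ∀ x ∈ E k, M < |f x - c| := by
    rintro k x ⟨hx1, _⟩
    have h1 : |f x| - |c| ≤ |f x - c| := abs_sub_abs_le_abs_sub _ _
    have h2 := ht1 (k0 + k)
    have h5 := hp2 k
    linarith
  have hEc : ∀ x, (∀ k, x ∉ E k) → |f x - c| ≤ B 0 := by
    intro x hx
    have hle : |f x| ≤ t k0 := by
      by_contra hcon
      push Not at hcon
      have hex : ∃ k, |f x| ≤ t (k0 + k) := by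
        obtain ⟨n, hn⟩ := pow_unbounded_of_one_lt |f x| (by norm_num : (1 : ℝ) < 2)
        exact ⟨n, hn.le.trans ((pow_le_pow_right₀ (by norm_num) (by omega)).trans (ht1 (k0 + n)))⟩
      classical
      have hspec := Nat.find_spec hex
      have hmin := fun m hm => Nat.find_min hex (m := m) hm
      rcases Nat.eq_zero_or_pos (Nat.find hex) with h0 | h0
      · rw [h0, add_zero] at hspec
        linarith
      · obtain ⟨m, hm⟩ : ∃ m, Nat.find hex = m + 1 := ⟨Nat.find hex - 1, by omega⟩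
        have h1 := hmin m (by omega)
        push Not at h1
        rw [hm] at hspec
        exact hx m ⟨h1, hspec⟩
    have h1 : |f x - c| ≤ |f x| + |c| := abs_sub _ _
    have h2 := ht2 k0
    have h3 : (2 : ℝ) ^ (k0 + 1) = 2 * 2 ^ k0 := by ring
    have h4 : B 0 = 8 * 2 ^ k0 := by rw [hB]; ring
    rw [h3] at h2
    rw [h4]
    have h6 : (0 : ℝ) < 2 ^ k0 := by positivity
    linarith
  have hmon : Monotone B := by
    intro i j hij
    exact pow_le_pow_right₀ (by norm_num) (by omega)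
  have hB0 : B 0 = 8 * 2 ^ k0 := by rw [hB]; ring
  have hBj : ∀ j, B j ≤ B 0 * 2 ^ j := by
    intro j
    rw [hB]
    apply le_of_eq
    ring
  have h2k0 : (0 : ℝ) < 2 ^ k0 := by positivity
  -- integrals
  have hEint : ∀ k, 2 ^ (k0 + k) * (mu1 (E k)).toReal ≤ ∫ x in E k, |f x| ∂mu1 := by
    intro k
    have h1 : ∫ _ in E k, (2 : ℝ) ^ (k0 + k) ∂mu1 ≤ ∫ x in E k, |f x| ∂mu1 := by
      apply setIntegral_mono_on (integrableOn_const (measure_ne_top _ _)) hfi.abs.integrableOn
        (hEm k)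
      intro x hx
      exact (ht1 (k0 + k)).trans hx.1.le
    rw [setIntegral_const, smul_eq_mul, mul_comm, measureReal_def] at h1
    exact h1
  have hsumI : Summable fun k => ∫ x in E k, |f x| ∂mu1 := by
    have := hasSum_integral_iUnion (μ := mu1) (f := fun x => |f x|) (s := E) hEm
      (fun i j hij => hEd i j hij) hfi.abs.integrableOn
    exact this.summable
  have hs1 : Summable fun k => B k * (mu1 (E k)).toReal := by
    refine Summable.of_nonneg_of_le (fun k => ?_) (fun k => ?_) (hsumI.mul_left 8)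
    · have : 0 ≤ B k := by rw [hB]; positivity
      positivity
    · have h1 := hEint k
      have h2 : B k = 8 * 2 ^ (k0 + k) := by rw [hB]; ring
      rw [h2, mul_assoc]
      linarith
  have hmk : ∀ k, (mu1 (E k)).toReal ≤ I / 2 ^ (k0 + k) := by
    intro k
    rw [le_div_iff₀ (by positivity), mul_comm]
    refine (hEint k).trans ?_
    exact setIntegral_le_integral hfi.abs (ae_of_all _ fun x => abs_nonneg _)
  have hs3 : ∀ n, ∑ k ∈ Finset.range n, (mu1 (E k)).toReal ≤ ε := by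
    intro n
    rw [← ENNReal.toReal_sum (fun k _ => measure_ne_top _ _),
      ← measure_biUnion_finset (fun i _ j _ hij => hEd i j hij) (fun k _ => hEm k)]
    have hsub : (⋃ k ∈ Finset.range n, E k) ⊆ {x | (2 : ℝ) ^ k0 ≤ |f x|} := by
      intro x hx
      simp only [mem_iUnion] at hx
      obtain ⟨k, _, hx1, _⟩ := hx
      have h2 := ht1 (k0 + k)
      have h5 := hp2 k
      show (2 : ℝ) ^ k0 ≤ |f x|
      linarith
    have h1 : (mu1 (⋃ k ∈ Finset.range n, E k)).toReal ≤ mu1.real {x | (2 : ℝ) ^ k0 ≤ |f x|} :=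
      ENNReal.toReal_mono (measure_ne_top _ _) (measure_mono hsub)
    refine h1.trans ?_
    have h2 := hmark (2 ^ k0)
    have h3 : I ≤ ε * 2 ^ k0 := by
      have h4 : I / ε ≤ 2 ^ k0 := by linarith
      rw [div_le_iff₀ hε] at h4
      linarith
    have h5 : 2 ^ k0 * mu1.real {x | (2 : ℝ) ^ k0 ≤ |f x|} ≤ 2 ^ k0 * ε := by linarith
    exact le_of_mul_le_mul_left h5 h2k0
  set Y : ℕ → ℝ := fun j => |∫ x in {x | t j < |f x| ∧ |f x| ≤ t (j + 1)}, f x ∂mu1| with hY
  have hX : ∀ k, |∫ x in E k, (f x - c) ∂mu1| ≤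
      Y (k0 + k) + |c| * (I * (1 / 2) ^ (k0 + k)) := by
    intro k
    have h1 : ∫ x in E k, (f x - c) ∂mu1 = (∫ x in E k, f x ∂mu1) -
        (mu1 (E k)).toReal * c := by
      rw [integral_sub hfi.integrableOn (integrableOn_const (measure_ne_top _ _)),
        setIntegral_const, smul_eq_mul, measureReal_def]
    have h4 : (mu1 (E k)).toReal ≤ I * (1 / 2) ^ (k0 + k) := by
      refine (hmk k).trans (le_of_eq ?_)
      rw [one_div, inv_pow, div_eq_mul_inv]
    have h5 : 0 ≤ (mu1 (E k)).toReal := ENNReal.toReal_nonneg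
    rw [h1]
    calc |(∫ x in E k, f x ∂mu1) - (mu1 (E k)).toReal * c|
        ≤ |∫ x in E k, f x ∂mu1| + |(mu1 (E k)).toReal * c| := abs_sub _ _
      _ = Y (k0 + k) + |c| * (mu1 (E k)).toReal := by
          rw [abs_mul, abs_of_nonneg h5, mul_comm |c|]
      _ ≤ _ := by gcongr
  have hX2 : ∀ k, |∫ x in E k, (f x - c) ∂mu1| ≤ B k * (mu1 (E k)).toReal := by
    intro k
    have := norm_setIntegral_le_of_norm_le_const (μ := mu1) (s := E k) (f := fun x => f x - c)
      (C := B k) (measure_lt_top _ _) (fun x hx => hEB k x hx)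
    exact this
  have hk0pos : (1 : ℝ) ≤ k0 := by
    have h1 : (1 : ℝ) < 2 ^ k0 := by linarith
    rcases Nat.eq_zero_or_pos k0 with h | h
    · rw [h] at h1; norm_num at h1
    · exact_mod_cast h
  set A : ℕ → ℝ := fun j => (j : ℝ) * Y j + |c| * I * ((j : ℝ) ^ 1 * (1 / 2) ^ j) with hA
  have hAs : Summable A := by
    refine ht3.add (Summable.mul_left _ ?_)
    exact summable_pow_mul_geometric_of_norm_lt_one 1 (by norm_num)
  have hs2 : Summable fun k => |∫ x in E k, (f x - c) ∂mu1| * Lg (mu1 (E k)).toReal := by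
    have hsum : Summable fun k => 8 * A (k + k0) + 2 * (1 / 2 : ℝ) ^ k :=
      (((summable_nat_add_iff k0).2 hAs).mul_left 8).add (summable_geometric_two.mul_left 2)
    have hmk2 : ∀ k, (mu1 (E k)).toReal ≤ 2 := by
      intro k
      have h1 : mu1 (E k) ≤ mu1 univ := measure_mono (subset_univ _)
      have h2 : mu1 univ = 2 := by
        unfold mu1
        rw [Measure.restrict_apply_univ, Real.volume_Icc]
        norm_num
      rw [h2] at h1
      have := ENNReal.toReal_mono (by norm_num) h1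
      simpa using this
    refine Summable.of_nonneg_of_le (fun k => ?_) (fun k => ?_) hsum
    · exact mul_nonneg (abs_nonneg _) (Lg_pos ENNReal.toReal_nonneg (hmk2 k)).le
    set X := |∫ x in E k, (f x - c) ∂mu1| with hXd
    set m := (mu1 (E k)).toReal with hm
    have hX0 : 0 ≤ X := abs_nonneg _
    have hm0 : 0 ≤ m := ENNReal.toReal_nonneg
    have hAn : ∀ j, 0 ≤ A j := fun j => by simp only [hA]; positivity
    have hRHS : 0 ≤ 8 * A (k + k0) + 2 * (1 / 2 : ℝ) ^ k := by
      have := hAn (k + k0)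
      positivity
    rcases hX0.eq_or_lt with h0 | hXpos
    · rw [← h0, zero_mul]
      exact hRHS
    rcases hm0.eq_or_lt with h0 | hmpos
    · exfalso
      have := hX2 k
      rw [← hm, ← h0, mul_zero] at this
      linarith
    have hBk : 0 < B k := by rw [hB]; positivity
    have hl2 : log 2 ≤ 1 := by have := Real.log_two_lt_d9; linarith
    -- the bound of the logarithm
    have h1 : -log m ≤ log (B k) - log X := by
      have h2 : log X ≤ log (B k * m) := log_le_log hXpos (hX2 k)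
      rw [log_mul hBk.ne' hmpos.ne'] at h2
      linarith
    have h3 : log (B k) ≤ k0 + k + 3 := by
      have : log (B k) = ((k0 + k + 3 : ℕ) : ℝ) * log 2 := by
        rw [hB]; exact Real.log_pow _ _
      rw [this]
      push_cast
      have h4 : (0 : ℝ) ≤ (k0 : ℝ) + k + 3 := by positivity
      nlinarith
    have h5 : X * (-log X) ≤ 2 * k * X + 2 * (1 / 2) ^ k := by
      have hkk : (0 : ℝ) ≤ k := Nat.cast_nonneg k
      have hpk : (0 : ℝ) < (1 / 2 : ℝ) ^ k := by positivity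
      rcases le_total ((1 / 4 : ℝ) ^ k) X with h6 | h6
      · have h7 : log ((1 / 4 : ℝ) ^ k) ≤ log X := log_le_log (by positivity) h6
        have h8 : log ((1 / 4 : ℝ) ^ k) = -(2 * k * log 2) := by
          rw [Real.log_pow, show (1 / 4 : ℝ) = (2 ^ 2)⁻¹ by norm_num, Real.log_inv, Real.log_pow]
          push_cast; ring
        have h9 : -log X ≤ 2 * k := by
          rw [h8] at h7
          have : 2 * (k : ℝ) * log 2 ≤ 2 * k * 1 := by gcongr
          linarith
        have h10 : X * (-log X) ≤ X * (2 * k) := mul_le_mul_of_nonneg_left h9 hX0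
        linarith
      · have hs : 0 < √X := Real.sqrt_pos.2 hXpos
        have h7 : -log (√X) ≤ 1 / √X - 1 := by
          have := Real.log_le_sub_one_of_pos (show 0 < 1 / √X by positivity)
          rw [one_div, Real.log_inv] at this
          rw [one_div]
          exact this
        have h8 : log X = 2 * log (√X) := by
          rw [Real.log_sqrt hX0]; ring
        have h9 : √X ≤ (1 / 2 : ℝ) ^ k := by
          rw [show (1 / 2 : ℝ) ^ k = √((1 / 4 : ℝ) ^ k) by
            rw [show (1 / 4 : ℝ) = (1 / 2) ^ 2 by norm_num, ← pow_mul, mul_comm, pow_mul,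
              Real.sqrt_sq (by positivity)]]
          exact Real.sqrt_le_sqrt h6
        have h10 : X = √X * √X := (Real.mul_self_sqrt hX0).symm
        have h11 : X * (-log X) ≤ X * (2 * (1 / √X - 1)) := by
          apply mul_le_mul_of_nonneg_left _ hX0
          rw [h8]
          linarith
        have h12 : X * (2 * (1 / √X - 1)) = 2 * √X - 2 * X := by
          have : X * (1 / √X) = √X := by
            rw [mul_one_div, div_eq_iff hs.ne']
            exact h10
          linear_combination 2 * this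
        have h13 : 0 ≤ 2 * (k : ℝ) * X := by positivity
        linarith
    have h6 : X * Lg m ≤ X * (k0 + 5 + 3 * k) + 2 * (1 / 2) ^ k := by
      unfold Lg
      have h7 : X * (2 - log m) ≤ X * (2 + ((k0 + k + 3) - log X)) :=
        mul_le_mul_of_nonneg_left (by linarith) hX0
      linarith
    refine h6.trans (add_le_add ?_ le_rfl)
    have hkk : (0 : ℝ) ≤ k := Nat.cast_nonneg k
    have h7 : (k0 : ℝ) + 5 + 3 * k ≤ 8 * (k + k0) := by linarith
    have e1 : k0 + k = k + k0 := by omega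
    have h8 := hX k
    rw [← hXd, e1] at h8
    have hY0 : 0 ≤ Y (k + k0) := abs_nonneg _
    have hcn : 0 ≤ |c| * (I * (1 / 2) ^ (k + k0)) := by positivity
    have hA1 : A (k + k0) = ((k : ℝ) + k0) * Y (k + k0) + ((k : ℝ) + k0) * (|c| * (I * (1 / 2) ^ (k + k0))) := by
      simp only [hA]
      push_cast
      ring
    calc X * (k0 + 5 + 3 * k) ≤ X * (8 * (k + k0)) := mul_le_mul_of_nonneg_left h7 hX0
      _ ≤ (Y (k + k0) + |c| * (I * (1 / 2) ^ (k + k0))) * (8 * (k + k0)) :=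
          mul_le_mul_of_nonneg_right h8 (by positivity)
      _ = 8 * A (k + k0) := by rw [hA1]; ring
  refine ⟨c, κ, M, B, E, hκpos, ?_, ?_, hmon, hBj, hEm, hEd, hEB, hEM, hEc, hm1, hm2,
    hs1, hs2, hs3⟩
  · rw [hB0]
    linarith
  · rw [hB0]
    linarith



/-- the logarithmic class gives good levels -/
theorem levels_of_log {f : ℝ → ℝ} (hf : Measurable f) (hfi : Integrable f mu1)
    (hM : ∫⁻ t in Ioi (1 : ℝ), ENNReal.ofReal
      (log t / t * |∫ x, (if t < |f x| then f x else 0) ∂mu1|) < ⊤) :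
    ∃ t : ℕ → ℝ, (∀ k, (2 : ℝ) ^ k ≤ t k) ∧ (∀ k, t k ≤ 2 ^ (k + 1)) ∧
      Summable fun k : ℕ => (k : ℝ) * |∫ x in {x | t k < |f x| ∧ |f x| ≤ t (k + 1)}, f x ∂mu1| := by
  obtain ⟨t, ht1, ht2, ht3⟩ := thr_tkL hM
  refine ⟨t, ht1, ht2, ?_⟩
  have hmt : ∀ k, t k ≤ t (k + 1) := fun k => (ht2 k).trans (ht1 (k + 1))
  set G : ℝ → ℝ := fun s => ∫ x, (if s < |f x| then f x else 0) ∂mu1 with hG
  have hGi : ∀ s, Integrable (fun x => if s < |f x| then f x else 0) mu1 := by
    intro s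
    have : (fun x => if s < |f x| then f x else 0) = indicator {x | s < |f x|} f := by
      ext x
      simp only [indicator, mem_ofPred_eq]
    rw [this]
    exact hfi.indicator (measurableSet_lt measurable_const hf.abs)
  have hEm : ∀ k, MeasurableSet {x | t k < |f x| ∧ |f x| ≤ t (k + 1)} := by
    intro k
    have habs : Measurable fun x => |f x| := hf.abs
    exact (measurableSet_lt measurable_const habs).inter (measurableSet_le habs measurable_const)
  have hEG : ∀ k, ∫ x in {x | t k < |f x| ∧ |f x| ≤ t (k + 1)}, f x ∂mu1 = G (t k) - G (t (k + 1)) := by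
    intro k
    rw [hG]
    simp only []
    rw [← integral_sub (hGi _) (hGi _), ← integral_indicator (hEm k)]
    congr 1
    ext x
    have hmk := hmt k
    by_cases h1 : t k < |f x|
    · by_cases h2 : t (k + 1) < |f x|
      · have : x ∉ {x | t k < |f x| ∧ |f x| ≤ t (k + 1)} := fun hx => absurd hx.2 (not_le.2 h2)
        rw [indicator_of_notMem this, if_pos h1, if_pos h2, sub_self]
      · have : x ∈ {x | t k < |f x| ∧ |f x| ≤ t (k + 1)} := ⟨h1, not_lt.1 h2⟩
        rw [indicator_of_mem this, if_pos h1, if_neg h2, sub_zero]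
    · have h2 : ¬ t (k + 1) < |f x| := by
        push Not at h1 ⊢
        linarith
      have : x ∉ {x | t k < |f x| ∧ |f x| ≤ t (k + 1)} := fun hx => h1 hx.1
      rw [indicator_of_notMem this, if_neg h1, if_neg h2, sub_self]
  refine Summable.of_nonneg_of_le (fun k => by positivity) (fun k => ?_)
    (ht3.add ((summable_nat_add_iff 1).2 ht3))
  rw [hEG]
  have h1 : |G (t k) - G (t (k + 1))| ≤ |G (t k)| + |G (t (k + 1))| := abs_sub _ _
  have h2 : (0 : ℝ) ≤ k := Nat.cast_nonneg k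
  have h3 : 0 ≤ |G (t (k + 1))| := abs_nonneg _
  calc (k : ℝ) * |G (t k) - G (t (k + 1))| ≤ k * (|G (t k)| + |G (t (k + 1))|) :=
        mul_le_mul_of_nonneg_left h1 h2
    _ ≤ k * |G (t k)| + ((k + 1 : ℕ) : ℝ) * |G (t (k + 1))| := by push_cast; nlinarith

/-- `L log L` gives good levels -/
theorem levels_of_LlogL {f : ℝ → ℝ} (hf : Measurable f) (hfi : Integrable f mu1)
    (hL : Integrable (fun x => |f x| * log (max 1 |f x|)) mu1) :
    ∃ t : ℕ → ℝ, (∀ k, (2 : ℝ) ^ k ≤ t k) ∧ (∀ k, t k ≤ 2 ^ (k + 1)) ∧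
      Summable fun k : ℕ => (k : ℝ) * |∫ x in {x | t k < |f x| ∧ |f x| ≤ t (k + 1)}, f x ∂mu1| := by
  refine ⟨fun k => 2 ^ k, fun k => le_rfl, fun k => pow_le_pow_right₀ (by norm_num) (by omega), ?_⟩
  set E : ℕ → Set ℝ := fun k => {x | (2 : ℝ) ^ k < |f x| ∧ |f x| ≤ 2 ^ (k + 1)} with hE
  have hEm : ∀ k, MeasurableSet (E k) := by
    intro k
    have habs : Measurable fun x => |f x| := hf.abs
    exact (measurableSet_lt measurable_const habs).inter (measurableSet_le habs measurable_const)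
  have hEd : ∀ i j, i ≠ j → Disjoint (E i) (E j) := by
    have key : ∀ i j, i < j → Disjoint (E i) (E j) := by
      intro i j hij
      rw [Set.disjoint_left]
      rintro x ⟨_, hx2⟩ ⟨hx3, _⟩
      have : (2 : ℝ) ^ (i + 1) ≤ 2 ^ j := pow_le_pow_right₀ (by norm_num) (by omega)
      linarith
    intro i j hij
    rcases lt_or_gt_of_ne hij with h | h
    · exact key i j h
    · exact (key j i h).symm
  have hsum : Summable fun k => ∫ x in E k, |f x| * log (max 1 |f x|) ∂mu1 :=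
    (hasSum_integral_iUnion (μ := mu1) (s := E) hEm (fun i j hij => hEd i j hij) hL.integrableOn).summable
  refine Summable.of_nonneg_of_le (fun k => by positivity) (fun k => ?_) (hsum.mul_left 2)
  show (k : ℝ) * |∫ x in E k, f x ∂mu1| ≤ _
  have hk : (0 : ℝ) ≤ k := Nat.cast_nonneg k
  have h1 : |∫ x in E k, f x ∂mu1| ≤ ∫ x in E k, |f x| ∂mu1 := abs_integral_le_integral_abs
  have h2 : ∫ x in E k, (k : ℝ) * |f x| ∂mu1 ≤ ∫ x in E k, 2 * (|f x| * log (max 1 |f x|)) ∂mu1 := by
    apply setIntegral_mono_on (hfi.abs.const_mul _).integrableOn (hL.const_mul _).integrableOn (hEm k)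
    intro x hx
    have hlog2 : (1 : ℝ) / 2 ≤ log 2 := by have := Real.log_two_gt_d9; linarith
    have h3 : log ((2 : ℝ) ^ k) ≤ log (max 1 |f x|) :=
      log_le_log (by positivity) (hx.1.le.trans (le_max_right _ _))
    rw [Real.log_pow] at h3
    have h4 : 0 ≤ |f x| := abs_nonneg _
    have h5 : (k : ℝ) ≤ 2 * log (max 1 |f x|) := by nlinarith
    calc (k : ℝ) * |f x| ≤ (2 * log (max 1 |f x|)) * |f x| := mul_le_mul_of_nonneg_right h5 h4
      _ = 2 * (|f x| * log (max 1 |f x|)) := by ring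
  rw [integral_const_mul, integral_const_mul] at h2
  calc (k : ℝ) * |∫ x in E k, f x ∂mu1| ≤ k * ∫ x in E k, |f x| ∂mu1 := mul_le_mul_of_nonneg_left h1 hk
    _ ≤ _ := h2

end Pool.Agent.Y249.Leg
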