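import Pool.Agent.Y249.Leg.InitL
import Pool.Agent.Y249.Leg.ThrL
import Pool.Agent.Helper187.Leg.Fin2

open MeasureTheory Set Real Filter Topology
open scoped ENNReal

namespace Pool.Agent.Y249.Leg

open Pool.Agent.Helper187.Leg

/-- the theorem on the line. -/
theorem main_lineL (f : ℝ → ℝ) (hf : Measurable f) (hfi : Integrable f mu1)
    (t : ℕ → ℝ) (ht1 : ∀ k, (2 : ℝ) ^ k ≤ t k) (ht2 : ∀ k, t k ≤ 2 ^ (k + 1))
    (ht3 : Summable fun k : ℕ => (k : ℝ) * |∫ x in {x | t k < |f x| ∧ |f x| ≤ t (k + 1)}, f x ∂mu1|)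
    {ε : ℝ} (hε : 0 < ε) :
    ∃ ω : MPI mu1, mu1 {x | ω.f x ≠ x} ≤ ENNReal.ofReal ε ∧ Integrable (f ∘ ω.f) mu1 ∧
      NN (f ∘ ω.f) < ⊤ ∧
      ∀ᵐ x ∂mu1, Tendsto (fun n => Sn n (f ∘ ω.f) x) atTop (𝓝 ((f ∘ ω.f) x)) := by
  by_cases hne : ∃ c : ℝ, ∀ᵐ x ∂mu1, f x = c
  · obtain ⟨c, hc⟩ := hne
    refine ⟨⟨id, id, MeasurePreserving.id _, MeasurePreserving.id _, Eventually.of_forall fun _ => rfl,
      Eventually.of_forall fun _ => rfl⟩, by simp, hfi, ?_, ?_⟩
    rotate_left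
    · show ∀ᵐ x ∂mu1, Tendsto (fun n => Sn n (f ∘ id) x) atTop (𝓝 ((f ∘ id) x))
      have hS : ∀ n x, Sn n (f ∘ id) x = c := by
        intro n x
        have e1 : Sn n (f ∘ id) x = Sn n (fun _ => c * 1) x :=
          Sn_congr n (by filter_upwards [hc] with y hy; simp [hy]) x
        rw [e1, Sn_const_mul n c (fun _ => (1 : ℝ)) x]
        unfold Sn
        simp only [mul_one]
        rw [K3.integral_LK n x, mul_one]
      filter_upwards [hc] with x hx
      simp only [hS, Function.comp_apply, id_eq, hx]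
      exact tendsto_const_nhds
    have : NN (f ∘ id) = NN (fun _ => c * 1) := NN_congr (by filter_upwards [hc] with x hx; simp [hx])
    show NN (f ∘ id) < ⊤
    rw [this, NN_const_mul c (h := fun _ => (1 : ℝ)) (by simp)]
    exact ENNReal.mul_lt_top (by simp) NN_one_lt
  · set ε1 := min (ε / 10) (1 / 4) with hε1
    have hε1pos : 0 < ε1 := lt_min (by positivity) (by norm_num)
    obtain ⟨c, κ, M, B, E, hκ, hκB, hMB, hB, hB2, hE, hEd, hEb, hE0, hoff, hpos, hneg, hsE, hsM, hεE⟩ :=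
      thresholdsL f hf hfi t ht1 ht2 ht3 hne hε1pos
    have hfc : Measurable fun x => f x - c := hf.sub_const c
    have hfci : Integrable (fun x => f x - c) mu1 := hfi.sub (integrable_const c)
    obtain ⟨τ, hτ, ⟨S⟩⟩ := initArrL fmatch_levels (fun x => f x - c) hfc hfci κ M B E hκ hκB hMB hB hB2 hE hEd
      hEb hE0 hoff hpos hneg hsE hsM hε1pos hεE (min_le_right _ _)
    obtain ⟨σ, hσ, hN, hcv⟩ := constructL ((fun x => f x - c) ∘ τ.f) (hfc.comp τ.f_mp.measurable)
      (τ.f_mp.integrable_comp_of_integrable hfci) (by positivity) S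
    refine ⟨⟨τ.f ∘ σ.f, σ.g ∘ τ.g, τ.f_mp.comp σ.f_mp, σ.g_mp.comp τ.g_mp, ?_, ?_⟩, ?_, ?_, ?_, ?_⟩
    · have h1 := σ.f_mp.quasiMeasurePreserving.ae τ.gf
      filter_upwards [h1, σ.gf] with x hx hx2
      simp only [Function.comp_apply]
      rw [hx, hx2]
    · have h1 := τ.g_mp.quasiMeasurePreserving.ae σ.fg
      filter_upwards [h1, τ.fg] with x hx hx2
      simp only [Function.comp_apply]
      rw [hx, hx2]
    · have hsub : {x | (τ.f ∘ σ.f) x ≠ x} ⊆ {x | τ.f x ≠ x} ∪ {x | σ.f x ≠ x} := by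
        intro x hx
        by_contra hcon
        simp only [mem_union, mem_ofPred_eq, not_or, not_not] at hcon
        apply hx
        simp only [Function.comp_apply, hcon.2, hcon.1]
      calc mu1 {x | (τ.f ∘ σ.f) x ≠ x} ≤ mu1 {x | τ.f x ≠ x} + mu1 {x | σ.f x ≠ x} :=
            (measure_mono hsub).trans (measure_union_le _ _)
        _ ≤ ENNReal.ofReal (4 * ε1) + ENNReal.ofReal (3 * (2 * ε1)) := add_le_add hτ hσ
        _ = ENNReal.ofReal (10 * ε1) := by
            rw [← ENNReal.ofReal_add (by positivity) (by positivity)]; congr 1; ring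
        _ ≤ ENNReal.ofReal ε := ENNReal.ofReal_le_ofReal (by
            have := min_le_left (ε / 10) (1 / 4 : ℝ); rw [← hε1] at this; linarith)
    · exact (τ.f_mp.comp σ.f_mp).integrable_comp_of_integrable hfi
    · have h2 : Integrable (((fun x => f x - c) ∘ τ.f) ∘ σ.f) mu1 :=
        σ.f_mp.integrable_comp_of_integrable (τ.f_mp.integrable_comp_of_integrable hfci)
      have h3 := comp_NN_lt c (CN.RHC.ii_of_int h2) hN
      have e : (fun x => (((fun x => f x - c) ∘ τ.f) ∘ σ.f) x + c) = f ∘ (τ.f ∘ σ.f) := by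
        funext x; simp
      rw [e] at h3
      exact h3
    · have h2 : Integrable (((fun x => f x - c) ∘ τ.f) ∘ σ.f) mu1 :=
        σ.f_mp.integrable_comp_of_integrable (τ.f_mp.integrable_comp_of_integrable hfci)
      have hii := CN.RHC.ii_of_int h2
      have e : (fun x => (((fun x => f x - c) ∘ τ.f) ∘ σ.f) x + c * (fun _ => (1 : ℝ)) x) = f ∘ (τ.f ∘ σ.f) := by
        funext x; simp
      show ∀ᵐ x ∂mu1, Tendsto (fun n => Sn n (f ∘ (τ.f ∘ σ.f)) x) atTop (𝓝 ((f ∘ (τ.f ∘ σ.f)) x))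
      rw [← e]
      filter_upwards [hcv] with x hx
      have hS : ∀ n, Sn n (fun x => (((fun x => f x - c) ∘ τ.f) ∘ σ.f) x + c * (fun _ => (1 : ℝ)) x) x
          = Sn n (((fun x => f x - c) ∘ τ.f) ∘ σ.f) x + c := by
        intro n
        rw [Sn_add n hii (k := fun x => c * (fun _ => (1 : ℝ)) x) (by simp), Sn_const_mul n c (fun _ => (1 : ℝ)) x]
        congr 1
        unfold Sn
        simp only [mul_one]
        rw [K3.integral_LK n x, mul_one]
      simp only [hS]
      have h3 := hx.add_const c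
      simpa using h3


end Pool.Agent.Y249.Leg
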