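import Pool.Agent.Y249.Leg.MainL

open MeasureTheory Set Real Filter Topology
open scoped ENNReal

namespace Pool.Agent.Y249.Leg

open Pool.Agent.Helper187.Leg

/-- a measurable representative on the line. -/
theorem lift_line {f : Icc (-1 : ℝ) 1 → ℝ} (hfi : Integrable f muS) :
    ∃ F : ℝ → ℝ, Measurable F ∧ Integrable F mu1 ∧ (∀ᵐ x : Icc (-1 : ℝ) 1 ∂muS, f x = F x) ∧
      (∀ ψ : ℝ → ℝ, ∫ x, ψ (f x) ∂muS = ∫ x, ψ (F x) ∂mu1) ∧
      (∀ ψ : ℝ → ℝ, Integrable (fun x => ψ (f x)) muS → Integrable (fun x => ψ (F x)) mu1) := by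
  classical
  obtain ⟨f', hf', hff'⟩ : ∃ f' : Icc (-1 : ℝ) 1 → ℝ, Measurable f' ∧ f =ᵐ[muS] f' :=
    ⟨hfi.aestronglyMeasurable.mk f, hfi.aestronglyMeasurable.stronglyMeasurable_mk.measurable,
      hfi.aestronglyMeasurable.ae_eq_mk⟩
  set F : ℝ → ℝ := Function.extend Subtype.val f' (fun _ => 0) with hF
  have hFx : ∀ x : Icc (-1 : ℝ) 1, F x = f' x := fun x => Subtype.val_injective.extend_apply _ _ x
  have hFm : Measurable F := (MeasurableEmbedding.subtype_coe measurableSet_Icc).measurable_extend hf' measurable_const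
  have hmap := (MeasurableEmbedding.subtype_coe (measurableSet_Icc (a := (-1 : ℝ)) (b := 1))).map_comap (μ := volume)
  rw [Subtype.range_coe] at hmap
  have hgen : ∀ ψ : ℝ → ℝ, Integrable (fun x => ψ (f x)) muS → Integrable (fun x => ψ (F x)) mu1 := by
    intro ψ h
    have h1 : Integrable ((fun x => ψ (F x)) ∘ (Subtype.val : Icc (-1 : ℝ) 1 → ℝ)) muS := by
      refine h.congr ?_
      filter_upwards [hff'] with x hx
      simp only [Function.comp_apply, hFx, hx]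
    unfold mu1
    rw [← hmap, (MeasurableEmbedding.subtype_coe measurableSet_Icc).integrable_map_iff]
    exact h1
  refine ⟨F, hFm, hgen id hfi, ?_, ?_, hgen⟩
  · filter_upwards [hff'] with x hx
    rw [hFx, hx]
  · intro ψ
    rw [← int_sub (fun x => ψ (F x))]
    refine integral_congr_ae ?_
    filter_upwards [hff'] with x hx
    simp only [hFx, hx]

/-- the levels hypothesis -/
def Levels (f : Icc (-1 : ℝ) 1 → ℝ) : Prop :=
  ∃ t : ℕ → ℝ, (∀ k, (2 : ℝ) ^ k ≤ t k ∧ t k ≤ 2 ^ (k + 1)) ∧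
    Summable fun k : ℕ => (k : ℝ) * |∫ x, (if t k < |f x| ∧ |f x| ≤ t (k + 1) then f x else 0) ∂muS|

theorem set_to_if {F : ℝ → ℝ} (hF : Measurable F) (s t : ℝ) :
    ∫ x in {x | s < |F x| ∧ |F x| ≤ t}, F x ∂mu1 = ∫ x, (if s < |F x| ∧ |F x| ≤ t then F x else 0) ∂mu1 := by
  have hm : MeasurableSet {x | s < |F x| ∧ |F x| ≤ t} :=
    (measurableSet_lt measurable_const hF.abs).inter (measurableSet_le hF.abs measurable_const)
  rw [← integral_indicator hm]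
  congr 1
  ext x
  by_cases h : s < |F x| ∧ |F x| ≤ t
  · rw [if_pos h, indicator_of_mem (show x ∈ {x | s < |F x| ∧ |F x| ≤ t} from h)]
  · rw [if_neg h, indicator_of_notMem (show x ∉ {x | s < |F x| ∧ |F x| ≤ t} from h)]

theorem Levels_of_log {f : Icc (-1 : ℝ) 1 → ℝ} (hfi : Integrable f muS)
    (hM : ∫⁻ t in Ioi (1 : ℝ), ENNReal.ofReal
      (log t / t * |∫ x, (if t < |f x| then f x else 0) ∂muS|) < ⊤) : Levels f := by
  obtain ⟨F, hFm, hFi, hfF, hint, hgen⟩ := lift_line hfi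
  have hM' : ∫⁻ t in Ioi (1 : ℝ), ENNReal.ofReal
      (log t / t * |∫ x, (if t < |F x| then F x else 0) ∂mu1|) < ⊤ := by
    have e : ∀ t : ℝ, ∫ x, (if t < |F x| then F x else 0) ∂mu1 = ∫ x, (if t < |f x| then f x else 0) ∂muS :=
      fun t => (hint fun y => if t < |y| then y else 0).symm
    simp_rw [e]
    exact hM
  obtain ⟨t, ht1, ht2, ht3⟩ := levels_of_log hFm hFi hM'
  refine ⟨t, fun k => ⟨ht1 k, ht2 k⟩, ?_⟩
  have e : ∀ k, ∫ x, (if t k < |f x| ∧ |f x| ≤ t (k + 1) then f x else 0) ∂muS =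
      ∫ x in {x | t k < |F x| ∧ |F x| ≤ t (k + 1)}, F x ∂mu1 := by
    intro k
    rw [set_to_if hFm]
    exact hint fun y => if t k < |y| ∧ |y| ≤ t (k + 1) then y else 0
  simp_rw [e]
  exact ht3

theorem Levels_of_LlogL {f : Icc (-1 : ℝ) 1 → ℝ} (hfi : Integrable f muS)
    (hL : Integrable (fun x => |f x| * log (max 1 |f x|)) muS) : Levels f := by
  obtain ⟨F, hFm, hFi, hfF, hint, hgen⟩ := lift_line hfi
  obtain ⟨t, ht1, ht2, ht3⟩ := levels_of_LlogL hFm hFi (hgen (fun y => |y| * log (max 1 |y|)) hL)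
  refine ⟨t, fun k => ⟨ht1 k, ht2 k⟩, ?_⟩
  have e : ∀ k, ∫ x, (if t k < |f x| ∧ |f x| ≤ t (k + 1) then f x else 0) ∂muS =
      ∫ x in {x | t k < |F x| ∧ |F x| ≤ t (k + 1)}, F x ∂mu1 := by
    intro k
    rw [set_to_if hFm]
    exact hint fun y => if t k < |y| ∧ |y| ≤ t (k + 1) then y else 0
  simp_rw [e]
  exact ht3

theorem main_subtypeL (f : Icc (-1 : ℝ) 1 → ℝ) (hfi : Integrable f muS) (hL : Levels f)
    {ε : ℝ} (hε : 0 < ε) :
    ∃ e : Icc (-1 : ℝ) 1 ≃ᵐ Icc (-1 : ℝ) 1, MeasurePreserving e muS muS ∧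
      muS {x | e x ≠ x} ≤ ENNReal.ofReal ε ∧ Integrable (f ∘ e) muS ∧
      ∫⁻ x : Icc (-1 : ℝ) 1, (⨆ n : ℕ, ENNReal.ofReal |∑ k ∈ Finset.range (n + 1),
        (∫ t : Icc (-1 : ℝ) 1, f (e t) * (√((k : ℝ) + 1 / 2) * leg k t) ∂muS) * (√((k : ℝ) + 1 / 2) * leg k x)|) ∂muS < ⊤ ∧
      (∀ᵐ x : Icc (-1 : ℝ) 1 ∂muS, Tendsto (fun n : ℕ => ∑ k ∈ Finset.range (n + 1),
        (∫ t : Icc (-1 : ℝ) 1, f (e t) * (√((k : ℝ) + 1 / 2) * leg k t) ∂muS) * (√((k : ℝ) + 1 / 2) * leg k x))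
        atTop (𝓝 (f (e x)))) ∧
      Tendsto (fun n : ℕ => ∫⁻ x : Icc (-1 : ℝ) 1, ENNReal.ofReal |(∑ k ∈ Finset.range (n + 1),
        (∫ t : Icc (-1 : ℝ) 1, f (e t) * (√((k : ℝ) + 1 / 2) * leg k t) ∂muS) * (√((k : ℝ) + 1 / 2) * leg k x))
          - f (e x)| ∂muS) atTop (𝓝 0) := by
  classical
  obtain ⟨F, hFm, hFi, hff', hint, hgen⟩ := lift_line hfi
  obtain ⟨t, ht, hts⟩ := hL
  have hts' : Summable fun k : ℕ => (k : ℝ) * |∫ x in {x | t k < |F x| ∧ |F x| ≤ t (k + 1)}, F x ∂mu1| := by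
    refine hts.congr fun k => ?_
    rw [set_to_if hFm, hint fun y => if t k < |y| ∧ |y| ≤ t (k + 1) then y else 0]
  obtain ⟨ω, hω, hωi, hωN, hωc⟩ := main_lineL F hFm hFi t (fun k => (ht k).1) (fun k => (ht k).2) hts' hε
  obtain ⟨e, he, hee⟩ := C2.upgrade ω
  have he' : MeasurePreserving e muS muS := he
  have hee' : ∀ᵐ x : Icc (-1 : ℝ) 1 ∂muS, ((e x : Icc (-1 : ℝ) 1) : ℝ) = ω.f x := hee
  have hcomp : ∀ᵐ x : Icc (-1 : ℝ) 1 ∂muS, f (e x) = F (ω.f x) := by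
    have h1 : ∀ᵐ x : Icc (-1 : ℝ) 1 ∂muS, f (e x) = F (e x) := he'.quasiMeasurePreserving.ae hff'
    filter_upwards [h1, hee'] with x hx hx2
    rw [hx, hx2]
  refine ⟨e, he', ?_, he'.integrable_comp_of_integrable hfi, ?_⟩
  · refine le_trans ?_ hω
    have h1 : muS {x : Icc (-1 : ℝ) 1 | e x ≠ x} ≤ muS {x : Icc (-1 : ℝ) 1 | ω.f x ≠ x} := by
      refine measure_mono_ae ?_
      filter_upwards [hee'] with x hx hx2 hx3
      apply hx2
      exact Subtype.ext (hx.trans hx3)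
    refine h1.trans (le_of_eq ?_)
    have h2 := (MeasurableEmbedding.subtype_coe (measurableSet_Icc (a := (-1 : ℝ)) (b := 1))).comap_apply volume
      {x : Icc (-1 : ℝ) 1 | ω.f x ≠ x}
    have h3 : Subtype.val '' {x : Icc (-1 : ℝ) 1 | ω.f x ≠ x} = {x | ω.f x ≠ x} ∩ Icc (-1) 1 := by
      ext x
      constructor
      · rintro ⟨y, hy, rfl⟩; exact ⟨hy, y.2⟩
      · rintro ⟨h, h'⟩; exact ⟨⟨x, h'⟩, h, rfl⟩
    show Measure.comap Subtype.val volume {x : Icc (-1 : ℝ) 1 | ω.f x ≠ x} = _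
    rw [h2, h3]
    unfold mu1
    rw [Measure.restrict_apply]
    exact (measurableSet_eq_fun ω.f_mp.measurable measurable_id).compl
  · have hii : IntervalIntegrable (F ∘ ω.f) volume (-1) 1 := CN.RHC.ii_of_int hωi
    have hcoef : ∀ k : ℕ, ∫ t : Icc (-1 : ℝ) 1, f (e t) * (√((k : ℝ) + 1 / 2) * leg k t) ∂muS
        = √((k : ℝ) + 1 / 2) * ∫ t in (-1 : ℝ)..1, leg k t * (F ∘ ω.f) t := by
      intro k
      have h1 : ∫ t : Icc (-1 : ℝ) 1, f (e t) * (√((k : ℝ) + 1 / 2) * leg k t) ∂muS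
          = ∫ t : Icc (-1 : ℝ) 1, (fun s : ℝ => √((k : ℝ) + 1 / 2) * (leg k s * (F ∘ ω.f) s)) t ∂muS := by
        refine integral_congr_ae ?_
        filter_upwards [hcomp] with t ht
        simp only [Function.comp_apply]
        rw [ht]; ring
      rw [h1, int_sub (fun s : ℝ => √((k : ℝ) + 1 / 2) * (leg k s * (F ∘ ω.f) s)), integral_const_mul, CN.RHC.int_full]
    have hS : ∀ (n : ℕ) (x : Icc (-1 : ℝ) 1), ∑ k ∈ Finset.range (n + 1),
        (∫ t : Icc (-1 : ℝ) 1, f (e t) * (√((k : ℝ) + 1 / 2) * leg k t) ∂muS) * (√((k : ℝ) + 1 / 2) * leg k x)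
        = Sn n (F ∘ ω.f) x := by
      intro n x
      rw [Sn_eq n hii]
      refine Finset.sum_congr rfl fun k _ => ?_
      rw [hcoef k]
      have hs : √((k : ℝ) + 1 / 2) * √((k : ℝ) + 1 / 2) = (k : ℝ) + 1 / 2 := mul_self_sqrt (by positivity)
      calc _ = (√((k : ℝ) + 1 / 2) * √((k : ℝ) + 1 / 2)) * (∫ t in (-1 : ℝ)..1, leg k t * (F ∘ ω.f) t) * leg k x := by ring
        _ = _ := by rw [hs]
    have h4 : ∫⁻ x : Icc (-1 : ℝ) 1, (⨆ n : ℕ, ENNReal.ofReal |Sn n (F ∘ ω.f) x|) ∂muS < ⊤ := by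
      have h5 : ∫⁻ x : Icc (-1 : ℝ) 1, (⨆ n : ℕ, ENNReal.ofReal |Sn n (F ∘ ω.f) x|) ∂muS
          = ∫⁻ x : Icc (-1 : ℝ) 1, (fun y : ℝ => Smax (F ∘ ω.f) y) x ∂muS := by
        refine lintegral_congr fun x => ?_
        unfold Smax
        refine iSup_congr fun n => ?_
        rw [Real.enorm_eq_ofReal_abs]
      rw [h5, lint_sub (fun y : ℝ => Smax (F ∘ ω.f) y)]
      have h6 : ∫⁻ x, Smax (F ∘ ω.f) x ∂mu1 = NN (F ∘ ω.f) := lint_mu1 _
      rw [h6]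
      exact hωN
    have hcv : ∀ᵐ x : Icc (-1 : ℝ) 1 ∂muS, Tendsto (fun n => Sn n (F ∘ ω.f) x) atTop (𝓝 (f (e x))) := by
      have h7 : ∀ᵐ x : Icc (-1 : ℝ) 1 ∂muS, Tendsto (fun n => Sn n (F ∘ ω.f) x) atTop (𝓝 ((F ∘ ω.f) x)) :=
        (ae_sub (q := fun x => Tendsto (fun n => Sn n (F ∘ ω.f) x) atTop (𝓝 ((F ∘ ω.f) x)))).2 hωc
      filter_upwards [h7, hcomp] with x hx hx2
      rw [hx2]
      exact hx
    simp_rw [hS]
    refine ⟨h4, hcv, ?_⟩
    have hfe : AEMeasurable (fun x : Icc (-1 : ℝ) 1 => f (e x)) muS :=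
      (he'.integrable_comp_of_integrable hfi).aestronglyMeasurable.aemeasurable
    have hSm : ∀ n, AEMeasurable (fun x : Icc (-1 : ℝ) 1 => Sn n (F ∘ ω.f) x) muS := fun n =>
      ((Sn_cont n hii).measurable.comp measurable_subtype_coe).aemeasurable
    have hz : Tendsto (fun n : ℕ => ∫⁻ x : Icc (-1 : ℝ) 1, ENNReal.ofReal |Sn n (F ∘ ω.f) x - f (e x)| ∂muS)
        atTop (𝓝 (∫⁻ _ : Icc (-1 : ℝ) 1, (0 : ℝ≥0∞) ∂muS)) := by
      refine tendsto_lintegral_of_dominated_convergence'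
        (fun x => 2 * ⨆ n : ℕ, ENNReal.ofReal |Sn n (F ∘ ω.f) x|) ?_ ?_ ?_ ?_
      · intro n
        exact ((hSm n).sub hfe).norm.ennreal_ofReal
      · intro n
        filter_upwards [hcv] with x hx
        have k1 : ENNReal.ofReal |Sn n (F ∘ ω.f) x| ≤ ⨆ n : ℕ, ENNReal.ofReal |Sn n (F ∘ ω.f) x| :=
          le_iSup (fun n : ℕ => ENNReal.ofReal |Sn n (F ∘ ω.f) x|) n
        have k2 : ENNReal.ofReal |f (e x)| ≤ ⨆ n : ℕ, ENNReal.ofReal |Sn n (F ∘ ω.f) x| := by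
          have k3 : Tendsto (fun n => ENNReal.ofReal |Sn n (F ∘ ω.f) x|) atTop (𝓝 (ENNReal.ofReal |f (e x)|)) :=
            ENNReal.tendsto_ofReal hx.abs
          exact le_of_tendsto' k3 fun n => le_iSup (fun n : ℕ => ENNReal.ofReal |Sn n (F ∘ ω.f) x|) n
        calc ENNReal.ofReal |Sn n (F ∘ ω.f) x - f (e x)|
            ≤ ENNReal.ofReal (|Sn n (F ∘ ω.f) x| + |f (e x)|) := ENNReal.ofReal_le_ofReal (abs_sub _ _)
          _ = ENNReal.ofReal |Sn n (F ∘ ω.f) x| + ENNReal.ofReal |f (e x)| :=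
              ENNReal.ofReal_add (abs_nonneg _) (abs_nonneg _)
          _ ≤ _ := by rw [two_mul]; exact add_le_add k1 k2
      · rw [lintegral_const_mul' _ _ (by norm_num)]
        exact (ENNReal.mul_lt_top (by norm_num) h4).ne
      · filter_upwards [hcv] with x hx
        have k3 : Tendsto (fun n => ENNReal.ofReal |Sn n (F ∘ ω.f) x - f (e x)|) atTop
            (𝓝 (ENNReal.ofReal |f (e x) - f (e x)|)) :=
          ENNReal.tendsto_ofReal (hx.sub_const _).abs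
        simpa using k3
    rw [lintegral_zero] at hz
    exact hz

end Pool.Agent.Y249.Leg
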